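import Pool.Agent.N132.HT.Core

/-!
# Classes with finite orbits under the Hodge torus are of type `(j, j)`
-/

open CategoryTheory AlgebraicGeometry

set_option autoImplicit false
set_option linter.unusedSectionVars false

universe u

namespace Pool.Agent.N132.HT

open Module
open Pool.Agent.H914 Pool.Agent.H914.VarClass Pool.Agent.H914.VarClass.Obj
  Pool.Agent.H914.WeilCohomology Pool.Agent.Y133.Half Pool.Agent.Y121.AH

variable {k : Type u} [Field k] {𝒱 : VarClass k} {ops : CycleOps 𝒱} (T : HodgeTheory ops)
  {X Y Z P : 𝒱.Obj}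

/-- The powers of the operator `2 ^ (p - q)`. -/
noncomputable def opsGop : Ops (CW T) ℕ where
  op n Z := gop T Z ^ n
  gr n Z j x hx := by
    induction n with
    | zero => exact hx
    | succ n ih =>
      rw [pow_succ', Module.End.mul_apply]
      exact gop_gr' ih
  mul n Z a b _ _ := by
    induction n with
    | zero => rfl
    | succ n ih =>
      rw [pow_succ', Module.End.mul_apply, Module.End.mul_apply, Module.End.mul_apply, ih,
        gop_mul]
  map n X Y f b _ := by
    induction n with
    | zero => rfl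
    | succ n ih =>
      rw [pow_succ', pow_succ', Module.End.mul_apply, Module.End.mul_apply, ih, gop_map]
  push n X Y f a _ := by
    induction n with
    | zero => rfl
    | succ n ih =>
      rw [pow_succ', pow_succ', Module.End.mul_apply, Module.End.mul_apply, ih, gop_push]

theorem gop_pow_pq {p q : ℤ} {x : (CW T).H X} (hx : x ∈ T.pq X p q) (n : ℕ) :
    (gop T X ^ n) x = ((2 : (CW T).K) ^ (p - q)) ^ n • x := by
  induction n with
  | zero => simp
  | succ n ih =>
    rw [pow_succ', Module.End.mul_apply, ih, map_smul, gop_pq hx, smul_smul, pow_succ]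

/-- If two powers of the operator agree on a class then it is fixed. -/
theorem gop_fix_of_pow {a b : ℕ} (hab : a ≠ b) {x : (CW T).H X}
    (h : (gop T X ^ a) x = (gop T X ^ b) x) : gop T X x = x := by
  classical
  set N : Module.End (CW T).K ((CW T).H X) := dia (Pool.Agent.Y121.AH.isInternal T X) fun r =>
    if r.1 = r.2 then 0 else (((2 : (CW T).K) ^ (r.1 - r.2)) ^ a -
      ((2 : (CW T).K) ^ (r.1 - r.2)) ^ b)⁻¹ with hN
  set E : Module.End (CW T).K ((CW T).H X) := dia (Pool.Agent.Y121.AH.isInternal T X) fun r =>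
    if r.1 = r.2 then 1 else 0 with hE
  have h1 : ∀ x, N ((gop T X ^ a) x) - N ((gop T X ^ b) x) + E x = x := by
    intro x
    refine pq_ind T (p := fun x => N ((gop T X ^ a) x) - N ((gop T X ^ b) x) + E x = x)
      ?_ ?_ ?_ x
    · intro p q x hx
      rw [gop_pow_pq T hx, gop_pow_pq T hx, map_smul, map_smul, hN, hE,
        dia_apply (Pool.Agent.Y121.AH.isInternal T X) _ (i := (p, q)) hx,
        dia_apply (Pool.Agent.Y121.AH.isInternal T X) _ (i := (p, q)) hx]
      by_cases hpq : p = q
      · simp [hpq]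
      · simp only [if_neg hpq, zero_smul, add_zero]
        have h2 : ((2 : (CW T).K) ^ (p - q)) ^ a - ((2 : (CW T).K) ^ (p - q)) ^ b ≠ 0 := by
          rw [sub_ne_zero]
          intro h3
          rw [← zpow_natCast, ← zpow_natCast, ← zpow_mul, ← zpow_mul] at h3
          have h4 : (2 : (CW T).K) ^ ((p - q) * (a : ℤ) - (p - q) * (b : ℤ)) = 1 := by
            rw [zpow_sub₀ two_ne, h3, div_self (zpow_ne_zero _ two_ne)]
          have h5 := two_zpow_ne h4
          rw [← mul_sub] at h5
          rcases mul_eq_zero.1 h5 with h6 | h6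
          · exact hpq (sub_eq_zero.1 h6)
          · exact hab (by omega)
        rw [smul_smul, smul_smul, ← sub_smul, ← sub_mul, mul_inv_cancel₀ h2, one_smul]
    · intro y z hy hz
      calc N ((gop T X ^ a) (y + z)) - N ((gop T X ^ b) (y + z)) + E (y + z)
          = (N ((gop T X ^ a) y) - N ((gop T X ^ b) y) + E y) +
            (N ((gop T X ^ a) z) - N ((gop T X ^ b) z) + E z) := by
            simp only [map_add]; abel
        _ = y + z := by rw [hy, hz]
    · simp
  have h2 : ∀ x, gop T X (E x) = E x := by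
    intro x
    refine pq_ind T (p := fun x => gop T X (E x) = E x) ?_ ?_ ?_ x
    · intro p q x hx
      rw [hE, dia_apply (Pool.Agent.Y121.AH.isInternal T X) _ (i := (p, q)) hx, map_smul,
        gop_pq hx]
      by_cases hpq : p = q
      · subst hpq
        rw [sub_self, zpow_zero, one_smul]
      · simp [hpq]
    · intro y z hy hz; simp only [map_add, hy, hz]
    · simp
  have h3 := h1 x
  rw [h, sub_self, zero_add] at h3
  rw [← h3]
  exact h2 x

variable {W : WeilCohomology.{u, 0} ops} (R : Rlz W (CW T))

/-- **Finite generation over classes of type `(j, j)` implies type `(j, j)`.** -/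
theorem pq_of_gen {S S' : Sys W} (hgen : GenBy S S' X P)
    (hS : ∀ Z, ∀ x ∈ S.C Z, gop T Z (R.E Z x) = R.E Z x) {n j : ℕ} {v : W.H (pw X n)}
    (hv : v ∈ S'.C (pw X n)) (hj : v ∈ W.gr (pw X n) (2 * j)) :
    R.E _ v ∈ T.pq (pw X n) j j := by
  classical
  obtain ⟨F, -, hFS, hfin⟩ := finite_values (opsGop T) R hgen hv
  have hfix : ∀ i : ℕ, Fixes (opsGop T) R F i := by
    intro i p hp
    have h1 := hS p.1 p.2 (hFS p hp)
    change (gop T p.1 ^ i) (R.E p.1 p.2) = R.E p.1 p.2
    induction i with
    | zero => rfl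
    | succ i ih => rw [pow_succ', Module.End.mul_apply, ih, h1]
  set A : Set ((CW T).H (pw X n)) :=
    {y | ∃ i, Fixes (opsGop T) R F i ∧ y = (opsGop T).op i (pw X n) (R.E (pw X n) v)} with hA
  have hAf : Finite A := hfin
  let e : ℕ → A := fun i => ⟨(gop T (pw X n) ^ i) (R.E _ v), i, hfix i, rfl⟩
  obtain ⟨a, b, hab, he⟩ := Finite.exists_ne_map_eq_of_infinite e
  have h2 : (gop T (pw X n) ^ a) (R.E _ v) = (gop T (pw X n) ^ b) (R.E _ v) :=
    congrArg Subtype.val he
  exact pq_of_fix' (R.gr hj) (gop_fix_of_pow T hab h2)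

end Pool.Agent.N132.HT
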