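import Pool.Agent.N132.HT.Desc
import Pool.Agent.N132.HT.Hdg
import Pool.Agent.R920.MT.Main

/-!
# The indices of the Hodge classes and of the Tate classes over the motivated classes
-/

open CategoryTheory AlgebraicGeometry TensorProduct Filter Topology

open scoped ENNReal

set_option autoImplicit false
set_option linter.unusedSectionVars false

universe u

namespace Pool.Agent.N132.HT

open Module
open Pool.Agent.H914 Pool.Agent.H914.VarClass Pool.Agent.H914.VarClass.Obj
  Pool.Agent.H914.WeilCohomology Pool.Agent.Y133.Half Pool.Agent.Y121.AH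
open Pool.Agent.Y132.AH (GaloisData IsTate isTate_zero isTate_add isTate_smul isTate_mul
  isTate_map isTate_cyc isTate_push)
open Pool.Agent.R920.MT (IsMotivated IsSystem motPred mot_nondeg powMul isSystem_hodge)

variable {k : Type u} [Field k] {𝒱 : VarClass k} {ops : CycleOps 𝒱}

section General

variable {V : WeilCohomology.{u, 0} ops} {S T' : Sys V} {X Z : 𝒱.Obj}

/-- A finite index implies finite generation. -/
theorem genBy_of_ind [Nontrivial (V.H X)] (hST : ∀ Z, S.C Z ≤ T'.C Z)
    (hS : ∀ n, S.Nondeg (pw X n)) {N : ℕ∞} (hN : S.IsInd X (fun n => T'.C (pw X n)) N)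
    (hN' : N ≠ ⊤) : ∃ P, GenBy S T' X P := by
  have hX : S.Nondeg X := hS 0
  obtain ⟨l, hl, hl1⟩ := Sys.exists_tr_one hX
  rcases growth_or S T' hST X hl hl1 with ⟨m, P, -, h⟩ | h
  · exact ⟨P, h⟩
  exfalso
  apply hN'
  have h1 : Tendsto (fun n => (finrank V.K (T'.C (pw X n)) : ℝ≥0∞) /
      finrank V.K (S.C (pw X n))) atTop (𝓝 ⊤) := by
    rw [ENNReal.tendsto_nhds_top_iff_nat]
    intro N
    obtain ⟨n₀, hn₀⟩ := h (N + 1)
    filter_upwards [eventually_ge_atTop n₀] with n hn
    have h2 := hn₀ n hn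
    rw [Sys.nondeg_iff.1 (hS n)] at h2
    have h3 : 0 < finrank V.K (S.C (pw X n)) := S.finrank_pos_pw n
    have h4 : ((N + 1 : ℕ) : ℝ≥0∞) ≤ (finrank V.K (T'.C (pw X n)) : ℝ≥0∞) /
        finrank V.K (S.C (pw X n)) := by
      rw [ENNReal.le_div_iff_mul_le (Or.inl (by exact_mod_cast h3.ne'))
        (Or.inl (ENNReal.natCast_ne_top _))]
      exact_mod_cast h2
    exact lt_of_lt_of_le (by exact_mod_cast Nat.lt_succ_self N) h4
  exact ENat.toENNReal_eq_top.1 (tendsto_nhds_unique hN h1)

/-- The Tate classes. -/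
def tatePred {Γ : Type} [Group Γ] (G : GaloisData V Γ) : ClassPred V where
  P X j c := IsTate G X j c
  gr h := h.1
  zero := isTate_zero G _ _
  add := isTate_add G
  smul r _ ha := isTate_smul G r ha
  cl := isTate_cyc G
  mul := isTate_mul G
  map f _ _ h := isTate_map G f h
  push f _ _ hl _ h := isTate_push G f hl h

end General

section Rational

variable {T : HodgeTheory ops} {L : Type} [Field L] [Algebra T.W.K L] {X Y Z P : 𝒱.Obj}
  {Γ : Type} [Group Γ] (G : GaloisData (baseW T.W L) Γ)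

theorem tate_pow {V : WeilCohomology.{u, 0} ops} (G : GaloisData V Γ) {w : V.H Z}
    (hw : IsTate G Z 1 w) (m : ℕ) : ∃ Δ : Subgroup Γ, Δ.FiniteIndex ∧
      ∀ g ∈ Δ, G.act Z g (w ^ m) = (G.χ g : V.K) ^ m • w ^ m := by
  obtain ⟨-, Δ, hΔ, h⟩ := hw
  refine ⟨Δ, hΔ, fun g hg => ?_⟩
  have h1 : G.act Z g w = (G.χ g : V.K) • w := by
    have h2 := h g hg
    rw [pow_one] at h2
    exact h2
  rw [map_pow, h1, smul_pow]

/-- Being a Tate class is one of the properties in the definition of the motivated classes. -/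
theorem isSystem_tate : IsSystem (W := T.W) (fun X j c => IsTate G X j (em T.W L c)) where
  lin X j := ⟨{ carrier := {c | IsTate G X j (em T.W L c)}
                zero_mem' := by
                  have h : IsTate G X j (em T.W L (0 : T.W.H X)) := by
                    rw [em_zero]; exact isTate_zero G X j
                  exact h
                add_mem' := fun {a b} ha hb => by
                  have h : IsTate G X j (em T.W L (a + b)) := by
                    rw [em_add]; exact isTate_add G ha hb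
                  exact h
                smul_mem' := fun r a ha => by
                  have h : IsTate G X j (em T.W L (r • a)) := by
                    rw [em_smul]; exact isTate_smul G _ ha
                  exact h }, fun _ => Iff.rfl⟩
  cl X j z hz := isTate_cyc G hz
  mul X i j a b ha hb := by
    beta_reduce at ha hb ⊢
    rw [em_mul]; exact isTate_mul G ha hb
  map X Y f j a ha := by
    beta_reduce at ha ⊢
    rw [← em_map]; exact isTate_map G f ha
  push X Y f j l a hl ha := by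
    beta_reduce at ha ⊢
    rw [← em_push]; exact isTate_push G f hl ha
  lift X D j hD hL hj x hx h := by
    beta_reduce at h ⊢
    have hLL : HardLefschetz (baseW T.W L) X D := base_hardLefschetz hD hL
    have hw : IsTate G X 1 ((baseW T.W L).cl X D) := isTate_cyc G hD
    obtain ⟨Δ₁, hΔ₁, h1⟩ := tate_pow G hw (X.dim - 2 * j)
    have hem : ∀ n, em T.W L (T.W.cl X D ^ n) = (baseW T.W L).cl X D ^ n := by
      intro n
      induction n with
      | zero => rw [pow_zero, pow_zero]; rfl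
      | succ n ih => rw [pow_succ, em_mul, ih, pow_succ, em_cl]
    have h0 : em T.W L (powMul (T.W.cl X D) (X.dim - 2 * j) x) =
        (baseW T.W L).cl X D ^ (X.dim - 2 * j) * em T.W L x := by
      rw [powMul, em_mul, hem]
    rw [h0] at h
    obtain ⟨-, Δ₂, hΔ₂, h2⟩ := h
    refine ⟨em_gr hx, Δ₁ ⊓ Δ₂, inferInstance, fun g hg => ?_⟩
    have e1 := h1 g hg.1
    have e2 : G.act X g ((baseW T.W L).cl X D ^ (X.dim - 2 * j) * em T.W L x) =
      (G.χ g : (baseW T.W L).K) ^ (X.dim - j) •
        ((baseW T.W L).cl X D ^ (X.dim - 2 * j) * em T.W L x) := h2 g hg.2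
    rw [map_mul, e1, show X.dim - j = (X.dim - 2 * j) + j by omega, pow_add, smul_mul_assoc,
      mul_smul] at e2
    have hne : (G.χ g : (baseW T.W L).K) ^ (X.dim - 2 * j) ≠ 0 :=
      pow_ne_zero _ (Units.ne_zero _)
    have e3 := smul_right_injective _ hne e2
    beta_reduce at e3
    rw [← mul_smul_comm, ← sub_eq_zero, ← mul_sub] at e3
    have e4 := hl_inj hLL hj (Submodule.sub_mem _ ((G.galois X).gr_mem g _ _ (em_gr hx))
      (Submodule.smul_mem _ ((G.χ g : (baseW T.W L).K) ^ j) (em_gr hx))) e3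
    exact sub_eq_zero.1 e4

theorem mot_tate {j : ℕ} {c : T.W.H Z} (h : IsMotivated T.W Z j c) : IsTate G Z j (em T.W L c) :=
  h _ (isSystem_tate G)

/-- The rational Tate classes. -/
def ratPred : ClassPred T.W where
  P X j c := IsTate G X j (em T.W L c)
  gr h := mem_of_em_mem h.1
  zero {X j} := by rw [em_zero]; exact isTate_zero G X j
  add ha hb := by rw [em_add]; exact isTate_add G ha hb
  smul r _ ha := by rw [em_smul]; exact isTate_smul G _ ha
  cl hz := isTate_cyc G hz
  mul ha hb := by rw [em_mul]; exact isTate_mul G ha hb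
  map f _ _ h := by rw [← em_map]; exact isTate_map G f h
  push f _ _ hl _ h := by rw [← em_push]; exact isTate_push G f hl h

theorem mot_fix (Z : 𝒱.Obj) : ∀ x ∈ (motPred T.W).sys.C Z, ∃ Δ : Subgroup Γ, Δ.FiniteIndex ∧
    ∀ g ∈ Δ, tw G g Z (em T.W L x) = em T.W L x := by
  intro x hx
  have hx' : x ∈ (motPred T.W).sp Z := hx
  refine ClassPred.sp_ind (Q := motPred T.W) (q := fun x => ∃ Δ : Subgroup Γ, Δ.FiniteIndex ∧
    ∀ g ∈ Δ, tw G g Z (em T.W L x) = em T.W L x) ?_ ?_ ?_ hx'
  · intro j x hx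
    exact tw_fix_of_isTate G (mot_tate G hx)
  · exact ⟨⊤, inferInstance, fun g _ => by rw [em_zero, map_zero]⟩
  · rintro a b ⟨Δ, hΔ, ha⟩ ⟨Δ', hΔ', hb⟩
    exact ⟨Δ ⊓ Δ', inferInstance, fun g hg => by rw [em_add, map_add, ha g hg.1, hb g hg.2]⟩

theorem mot_gop (T : HodgeTheory ops) (Z : 𝒱.Obj) : ∀ x ∈ (motPred T.W).sys.C Z,
    gop T Z (em T.W ℂ x) = em T.W ℂ x := by
  intro x hx
  have hx' : x ∈ (motPred T.W).sp Z := hx
  refine ClassPred.sp_ind (Q := motPred T.W) (q := fun x => gop T Z (em T.W ℂ x) = em T.W ℂ x)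
    ?_ ?_ ?_ hx'
  · intro j x hx
    exact gop_hodge (hx _ (isSystem_hodge T))
  · rw [em_zero, map_zero]
  · intro a b ha hb
    rw [em_add, map_add, ha, hb]

theorem base_le_tate (Z : 𝒱.Obj) :
    ((ratPred G).sys.base L).C Z ≤ (tatePred G).sys.C Z := by
  intro x hx
  refine base_ind (p := (ratPred G).sys.C Z) (q := fun x => x ∈ (tatePred G).sys.C Z)
    ?_ ?_ ?_ hx
  · exact Submodule.zero_mem _
  · intro x y hx hy; exact Submodule.add_mem _ hx hy
  · intro l a ha
    refine Submodule.smul_mem _ _ ?_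
    have ha' : a ∈ (ratPred G).sp Z := ha
    refine ClassPred.sp_ind (Q := ratPred G) (q := fun a => em T.W L a ∈ (tatePred G).sys.C Z)
      ?_ ?_ ?_ ha'
    · intro j a ha
      exact ClassPred.sp_of (Q := tatePred G) ha
    · rw [em_zero]; exact Submodule.zero_mem _
    · intro a b ha hb
      rw [em_add]; exact Submodule.add_mem _ ha hb

theorem mot_le_rat (Z : 𝒱.Obj) : (motPred T.W).sys.C Z ≤ (ratPred G).sys.C Z :=
  ClassPred.sys_le (Q := motPred T.W) (R := ratPred G) (fun h => mot_tate G h) Z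

theorem mot_le_hodge (T : HodgeTheory ops) (Z : 𝒱.Obj) :
    (motPred T.W).sys.C Z ≤ (hodgePred T).sys.C Z :=
  ClassPred.sys_le (Q := motPred T.W) (R := hodgePred T) (fun h => h _ (isSystem_hodge T)) Z

theorem mot_le_tate (Z : 𝒱.Obj) :
    ((motPred T.W).sys.base L).C Z ≤ (tatePred G).sys.C Z :=
  (Sys.base_le L (mot_le_rat G) Z).trans (base_le_tate G Z)

theorem finrank_rat_le (Z : 𝒱.Obj) : finrank T.W.K ((ratPred G).sys.C Z) ≤
    finrank (baseW T.W L).K ((tatePred G).sys.C Z) := by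
  rw [← Sys.finrank_base (S := (ratPred G).sys) L]
  exact Submodule.finrank_mono (base_le_tate G Z)

variable [Nontrivial (T.W.H X)]

/-- The index of the Hodge classes. -/
theorem exists_indH (T : HodgeTheory ops) (X : 𝒱.Obj) [Nontrivial (T.W.H X)] :
    ∃ N : ℕ∞, 1 ≤ N ∧
    (motPred T.W).sys.IsInd X (fun n => (hodgePred T).sys.C (pw X n)) N ∧
    (N = 1 ↔ ∀ n, (hodgePred T).sys.C (pw X n) = (motPred T.W).sys.C (pw X n)) := by
  obtain ⟨N, h1, h2, -, h4⟩ := Sys.stab_index (S := (motPred T.W).sys) (X := X)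
    (fun n => mot_nondeg T (pw X n)) (Sys.stab_of_le (mot_le_hodge T)) fun n => mot_le_hodge T _
  exact ⟨N, h1, h2, h4⟩

/-- The index of the rational Tate classes. -/
theorem exists_indR : ∃ N : ℕ∞, 1 ≤ N ∧
    (motPred T.W).sys.IsInd X (fun n => (ratPred G).sys.C (pw X n)) N := by
  obtain ⟨N, h1, h2, -, -⟩ := Sys.stab_index (S := (motPred T.W).sys) (X := X)
    (fun n => mot_nondeg T (pw X n)) (Sys.stab_of_le (mot_le_rat G)) fun n => mot_le_rat G _
  exact ⟨N, h1, h2⟩

/-- The index of the Tate classes. -/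
theorem exists_indT : ∃ N : ℕ∞, 1 ≤ N ∧
    ((motPred T.W).sys.base L).IsInd X (fun n => (tatePred G).sys.C (pw X n)) N ∧
    (N = 1 ↔ ∀ n, (tatePred G).sys.C (pw X n) = ((motPred T.W).sys.base L).C (pw X n)) := by
  have hnt : Nontrivial ((baseW T.W L).H X) := Pool.Agent.Y129.nontrivial_base L
  obtain ⟨N, h1, h2, -, h4⟩ := Sys.stab_index (S := (motPred T.W).sys.base L) (X := X)
    (fun n => (mot_nondeg T (pw X n)).base L) (Sys.stab_of_le (mot_le_tate G))
    fun n => mot_le_tate G _
  exact ⟨N, h1, h2, h4⟩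

variable {G}

/-- The index of the Tate classes in terms of the dimension of the space of motivated classes. -/
theorem indT_iff {N : ℕ∞} : ((motPred T.W).sys.base L).IsInd X
    (fun n => (tatePred G).sys.C (pw X n)) N ↔
    Tendsto (fun n => (finrank (baseW T.W L).K ((tatePred G).sys.C (pw X n)) : ℝ≥0∞) /
      finrank T.W.K ((motPred T.W).sys.C (pw X n))) atTop (𝓝 (N : ℝ≥0∞)) := by
  unfold Sys.IsInd
  simp only [Sys.finrank_base]

theorem genBy_rat {N : ℕ∞} (hN : ((motPred T.W).sys.base L).IsInd X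
    (fun n => (tatePred G).sys.C (pw X n)) N) (hN' : N ≠ ⊤) :
    ∃ P, GenBy (motPred T.W).sys (ratPred G).sys X P := by
  obtain ⟨N', h1, h2⟩ := exists_indR (X := X) G
  have hle : N' ≤ N := by
    rw [indT_iff] at hN
    have h3 : (N' : ℝ≥0∞) ≤ (N : ℝ≥0∞) := by
      refine le_of_tendsto_of_tendsto' h2 hN fun n => ?_
      apply ENNReal.div_le_div_right
      exact_mod_cast finrank_rat_le G (pw X n)
    exact_mod_cast h3
  exact genBy_of_ind (mot_le_rat G) (fun n => mot_nondeg T (pw X n)) h2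
    (fun h => hN' (top_le_iff.1 (h ▸ hle)))

/-- A finite index of the Tate classes implies that they are rational. -/
theorem tate_le_base (τ : L →+* ℂ) {N : ℕ∞} (hN : ((motPred T.W).sys.base L).IsInd X
    (fun n => (tatePred G).sys.C (pw X n)) N) (hN' : N ≠ ⊤) {n j : ℕ}
    {c : (baseW T.W L).H (pw X n)} (hc : IsTate G (pw X n) j c) :
    c ∈ Submodule.span (baseW T.W L).K
      {x | ∃ c', IsTate G (pw X n) j (em T.W L c') ∧ em T.W L c' = x} := by
  have hnt : Nontrivial ((baseW T.W L).H X) := Pool.Agent.Y129.nontrivial_base L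
  obtain ⟨P, hP⟩ := genBy_of_ind (mot_le_tate G) (fun n => (mot_nondeg T (pw X n)).base L) hN hN'
  exact tate_rational G τ hP (mot_fix G) (ClassPred.sp_of (Q := tatePred G) hc) hc.1

/-- A finite index of the Tate classes implies that the rational Tate classes are Hodge classes. -/
theorem rat_hodge {N : ℕ∞} (hN : ((motPred T.W).sys.base L).IsInd X
    (fun n => (tatePred G).sys.C (pw X n)) N) (hN' : N ≠ ⊤) {n j : ℕ} {c : T.W.H (pw X n)}
    (hc : IsTate G (pw X n) j (em T.W L c)) : IsHodge T (pw X n) j c := by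
  obtain ⟨P, hP⟩ := genBy_rat hN hN'
  have hgr : c ∈ T.W.gr (pw X n) (2 * j) := mem_of_em_mem hc.1
  exact ⟨hgr, pq_of_gen T (emRlz T.W ℂ) hP (mot_gop T)
    (ClassPred.sp_of (Q := ratPred G) hc) hgr⟩

/-- A finite index of the Tate classes implies that the rational Tate classes are Tate classes for
all other Galois actions. -/
theorem rat_tate {L' : Type} [Field L'] [Algebra T.W.K L'] {Γ' : Type} [Group Γ']
    (G' : GaloisData (baseW T.W L') Γ') {N : ℕ∞} (hN : ((motPred T.W).sys.base L).IsInd X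
    (fun n => (tatePred G).sys.C (pw X n)) N) (hN' : N ≠ ⊤) {n j : ℕ} {c : T.W.H (pw X n)}
    (hc : IsTate G (pw X n) j (em T.W L c)) : IsTate G' (pw X n) j (em T.W L' c) := by
  obtain ⟨P, hP⟩ := genBy_rat hN hN'
  exact isTate_of_gen G' (emRlz T.W L') hP (mot_fix G')
    (ClassPred.sp_of (Q := ratPred G) hc) (mem_of_em_mem hc.1)

/-- A finite index of the Hodge classes implies that they are Tate classes. -/
theorem hodge_tate (G' : GaloisData (baseW T.W L) Γ) {N : ℕ∞}
    (hN : (motPred T.W).sys.IsInd X (fun n => (hodgePred T).sys.C (pw X n)) N) (hN' : N ≠ ⊤)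
    {n j : ℕ} {c : T.W.H (pw X n)} (hc : IsHodge T (pw X n) j c) :
    IsTate G' (pw X n) j (em T.W L c) := by
  obtain ⟨P, hP⟩ := genBy_of_ind (mot_le_hodge T) (fun n => mot_nondeg T (pw X n)) hN hN'
  exact isTate_of_gen G' (emRlz T.W L) hP (mot_fix G')
    (ClassPred.sp_of (Q := hodgePred T) hc) hc.1

/-- The dimensions in the case of a finite index. -/
theorem finrank_tate_le (τ : L →+* ℂ) {N : ℕ∞} (hN : ((motPred T.W).sys.base L).IsInd X
    (fun n => (tatePred G).sys.C (pw X n)) N) (hN' : N ≠ ⊤) (n : ℕ) :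
    finrank (baseW T.W L).K ((tatePred G).sys.C (pw X n)) ≤
      finrank T.W.K ((ratPred G).sys.C (pw X n)) := by
  rw [← Sys.finrank_base (S := (ratPred G).sys) L]
  refine Submodule.finrank_mono ?_
  intro c hc
  have hc' : c ∈ (tatePred G).sp (pw X n) := hc
  refine ClassPred.sp_ind (Q := tatePred G)
    (q := fun c => c ∈ ((ratPred G).sys.base L).C (pw X n)) ?_ ?_ ?_ hc'
  · intro j x hx
    have h1 := tate_le_base τ hN hN' hx
    refine Submodule.span_le.2 ?_ h1
    rintro _ ⟨c', hc', rfl⟩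
    exact Submodule.tmul_mem_baseChange_of_mem (1 : L)
      (ClassPred.sp_of (Q := ratPred G) hc')
  · exact Submodule.zero_mem _
  · intro a b ha hb; exact Submodule.add_mem _ ha hb

theorem rat_le_hodge {N : ℕ∞} (hN : ((motPred T.W).sys.base L).IsInd X
    (fun n => (tatePred G).sys.C (pw X n)) N) (hN' : N ≠ ⊤) (n : ℕ) :
    (ratPred G).sys.C (pw X n) ≤ (hodgePred T).sys.C (pw X n) := by
  intro c hc
  have hc' : c ∈ (ratPred G).sp (pw X n) := hc
  refine ClassPred.sp_ind (Q := ratPred G) (q := fun c => c ∈ (hodgePred T).sys.C (pw X n))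
    ?_ ?_ ?_ hc'
  · intro j x hx; exact ClassPred.sp_of (Q := hodgePred T) (rat_hodge hN hN' hx)
  · exact Submodule.zero_mem _
  · intro a b ha hb; exact Submodule.add_mem _ ha hb

theorem rat_le_rat {L' : Type} [Field L'] [Algebra T.W.K L'] {Γ' : Type} [Group Γ']
    (G' : GaloisData (baseW T.W L') Γ') {N : ℕ∞} (hN : ((motPred T.W).sys.base L).IsInd X
    (fun n => (tatePred G).sys.C (pw X n)) N) (hN' : N ≠ ⊤) (n : ℕ) :
    (ratPred G).sys.C (pw X n) ≤ (ratPred G').sys.C (pw X n) := by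
  intro c hc
  have hc' : c ∈ (ratPred G).sp (pw X n) := hc
  refine ClassPred.sp_ind (Q := ratPred G) (q := fun c => c ∈ (ratPred G').sys.C (pw X n))
    ?_ ?_ ?_ hc'
  · intro j x hx; exact ClassPred.sp_of (Q := ratPred G') (rat_tate G' hN hN' hx)
  · exact Submodule.zero_mem _
  · intro a b ha hb; exact Submodule.add_mem _ ha hb

theorem hodge_le_rat (G' : GaloisData (baseW T.W L) Γ) {N : ℕ∞}
    (hN : (motPred T.W).sys.IsInd X (fun n => (hodgePred T).sys.C (pw X n)) N) (hN' : N ≠ ⊤)
    (n : ℕ) : (hodgePred T).sys.C (pw X n) ≤ (ratPred G').sys.C (pw X n) := by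
  intro c hc
  have hc' : c ∈ (hodgePred T).sp (pw X n) := hc
  refine ClassPred.sp_ind (Q := hodgePred T) (q := fun c => c ∈ (ratPred G').sys.C (pw X n))
    ?_ ?_ ?_ hc'
  · intro j x hx; exact ClassPred.sp_of (Q := ratPred G') (hodge_tate G' hN hN' hx)
  · exact Submodule.zero_mem _
  · intro a b ha hb; exact Submodule.add_mem _ ha hb

end Rational

section Compare

/-- Comparison of two indices. -/
theorem ind_le {t t' s : ℕ → ℕ} {N N' : ℕ∞} (h : HasIndex t s N) (h' : HasIndex t' s N')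
    (hle : ∀ n, t n ≤ t' n) : N ≤ N' := by
  have h3 : (N : ℝ≥0∞) ≤ (N' : ℝ≥0∞) := by
    refine le_of_tendsto_of_tendsto' h h' fun n => ?_
    apply ENNReal.div_le_div_right
    exact_mod_cast hle n
  exact_mod_cast h3

/-- If the quotients are bounded along a subsequence, the index is finite. -/
theorem ne_top_of_frequently {t s : ℕ → ℕ} {N : ℕ∞} (h : HasIndex t s N) (hs : ∀ n, 0 < s n)
    {C : ℕ} (hC : ∃ᶠ n in atTop, t n ≤ C * s n) : N ≠ ⊤ := by
  rintro rfl
  have h1 : ∀ᶠ n in atTop, (C : ℝ≥0∞) < (t n : ℝ≥0∞) / s n := by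
    have h2 : Tendsto (fun n => (t n : ℝ≥0∞) / s n) atTop (𝓝 ⊤) := h
    exact (ENNReal.tendsto_nhds_top_iff_nat.1 h2) C
  obtain ⟨n, hn, hn'⟩ := (hC.and_eventually h1).exists
  have h3 : (t n : ℝ≥0∞) / s n ≤ C := by
    rw [ENNReal.div_le_iff (by exact_mod_cast (hs n).ne') (ENNReal.natCast_ne_top _)]
    exact_mod_cast hn
  exact absurd (lt_of_lt_of_le hn' h3) (lt_irrefl _)

end Compare

end Pool.Agent.N132.HT
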