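import Pool.Agent.N132.HT.MDefs
import Pool.Agent.N132.HT.Index

/-!
# The common index of the Hodge classes and of the Tate classes over the motivated classes
-/

open CategoryTheory AlgebraicGeometry TensorProduct Filter Topology

open scoped ENNReal

set_option autoImplicit false
set_option linter.unusedSectionVars false

universe u

namespace Pool.Agent.N132.HT

open Module
open Pool.Agent.H914 Pool.Agent.H914.VarClass Pool.Agent.H914.VarClass.Obj
  Pool.Agent.H914.WeilCohomology Pool.Agent.Y133.Half Pool.Agent.Y121.AH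
open Pool.Agent.Y132.AH (GaloisData IsTate isTate_zero isTate_add isTate_smul isTate_mul
  isTate_map isTate_cyc isTate_push)
open Pool.Agent.R920.MT (IsMotivated IsSystem motPred mot_nondeg powMul isSystem_hodge)

variable {k : Type u} [Field k] {𝒱 : VarClass k} {ops : CycleOps 𝒱}

section Graded

variable {W : WeilCohomology.{u, 0} ops} {L : Type} [Field L] [Algebra W.K L] {Z : 𝒱.Obj}

theorem base_proj (Q : ClassPred W) {c : (baseW W L).H Z} (hc : c ∈ (Q.sys.base L).C Z)
    (j : ℕ) : H914.proj ((baseW W L).isInternal Z) (2 * j) c ∈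
      Submodule.span (baseW W L).K {x | ∃ c', Q.P Z j c' ∧ em W L c' = x} := by
  refine base_ind (p := Q.sys.C Z) (q := fun c => H914.proj ((baseW W L).isInternal Z) (2 * j) c ∈
      Submodule.span (baseW W L).K {x | ∃ c', Q.P Z j c' ∧ em W L c' = x}) ?_ ?_ ?_ hc
  · rw [map_zero]; exact Submodule.zero_mem _
  · intro x y hx hy
    rw [map_add]; exact Submodule.add_mem _ hx hy
  · intro l a ha
    rw [map_smul]
    refine Submodule.smul_mem _ _ ?_
    have ha' : a ∈ Q.sp Z := ha
    refine ClassPred.sp_ind (Q := Q) (q := fun a =>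
      H914.proj ((baseW W L).isInternal Z) (2 * j) (em W L a) ∈
      Submodule.span (baseW W L).K {x | ∃ c', Q.P Z j c' ∧ em W L c' = x}) ?_ ?_ ?_ ha'
    · intro i a ha
      by_cases h : i = j
      · subst h
        rw [proj_same _ (em_gr (Q.gr ha))]
        exact Submodule.subset_span ⟨a, ha, rfl⟩
      · rw [proj_ne _ (em_gr (Q.gr ha)) (by omega)]
        exact Submodule.zero_mem _
    · rw [em_zero, map_zero]; exact Submodule.zero_mem _
    · intro a b ha hb
      rw [em_add, map_add]; exact Submodule.add_mem _ ha hb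

theorem base_graded (Q : ClassPred W) {c : (baseW W L).H Z} (hc : c ∈ (Q.sys.base L).C Z)
    {j : ℕ} (hj : c ∈ (baseW W L).gr Z (2 * j)) :
    c ∈ Submodule.span (baseW W L).K {x | ∃ c', Q.P Z j c' ∧ em W L c' = x} := by
  have h := base_proj Q hc j
  rwa [proj_same _ hj] at h

theorem span_le_base (Q : ClassPred W) (j : ℕ) :
    Submodule.span (baseW W L).K {x | ∃ c', Q.P Z j c' ∧ em W L c' = x} ≤
      (Q.sys.base L).C Z := by
  refine Submodule.span_le.2 ?_
  rintro _ ⟨c', hc', rfl⟩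
  exact Submodule.tmul_mem_baseChange_of_mem (1 : L) (ClassPred.sp_of (Q := Q) hc')

end Graded

variable {T : HodgeTheory ops}

section One

variable {L : Type} [Field L] [Algebra T.W.K L] {X Z : 𝒱.Obj} {Γ : Type} [Group Γ]
  (G : GaloisData (baseW T.W L) Γ)

theorem tateMotivated_iff (Z : 𝒱.Obj) : (tatePred G).sys.C Z =
    ((motPred T.W).sys.base L).C Z ↔ TateMotivated G Z := by
  constructor
  · intro h j c hc
    refine base_graded (motPred T.W) ?_ hc.1
    rw [← h]
    exact ClassPred.sp_of (Q := tatePred G) hc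
  · intro h
    refine le_antisymm ?_ (mot_le_tate G Z)
    intro c hc
    have hc' : c ∈ (tatePred G).sp Z := hc
    refine ClassPred.sp_ind (Q := tatePred G)
      (q := fun c => c ∈ ((motPred T.W).sys.base L).C Z) ?_ ?_ ?_ hc'
    · intro j x hx
      exact span_le_base (motPred T.W) j (h j x hx)
    · exact Submodule.zero_mem _
    · intro a b ha hb; exact Submodule.add_mem _ ha hb

theorem hodgeMotivated_iff (T : HodgeTheory ops) (Z : 𝒱.Obj) : (hodgePred T).sys.C Z =
    (motPred T.W).sys.C Z ↔ HodgeMotivated T Z :=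
  ClassPred.sys_eq_iff (Q := motPred T.W) (R := hodgePred T)
    (fun h => h _ (isSystem_hodge T)) Z

theorem span_tate {j : ℕ} {p : T.W.H Z → Prop} (hp : ∀ c, p c → IsTate G Z j (em T.W L c))
    {c : (baseW T.W L).H Z}
    (hc : c ∈ Submodule.span (baseW T.W L).K {x | ∃ c', p c' ∧ em T.W L c' = x}) :
    IsTate G Z j c := by
  have h : Submodule.span (baseW T.W L).K {x | ∃ c', p c' ∧ em T.W L c' = x} ≤
      tateSub G Z j := by
    refine Submodule.span_le.2 ?_
    rintro _ ⟨c', hc', rfl⟩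
    exact hp c' hc'
  exact h hc

theorem hasIndex_hodge {N : ℕ∞}
    (h : (motPred T.W).sys.IsInd X (fun n => (hodgePred T).sys.C (pw X n)) N) :
    HasIndex (fun n => hodgeDim T (pw X n)) (fun n => motDim T.W (pw X n)) N := h

theorem hasIndex_tate [Nontrivial (T.W.H X)] {N : ℕ∞}
    (h : ((motPred T.W).sys.base L).IsInd X (fun n => (tatePred G).sys.C (pw X n)) N) :
    HasIndex (fun n => tateDim G (pw X n)) (fun n => motDim T.W (pw X n)) N := indT_iff.1 h

end One

theorem motDim_pos (T : HodgeTheory ops) (X : 𝒱.Obj) [Nontrivial (T.W.H X)] (n : ℕ) :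
    0 < motDim T.W (pw X n) :=
  Sys.finrank_pos_pw (motPred T.W).sys n

/-- The values of a family in which finite values are minimal. -/
theorem common_value {ι : Type} (v : ι → ℕ∞) (h1 : ∀ i, 1 ≤ v i)
    (h : ∀ i j, v i ≠ ⊤ → v i ≤ v j) : ∃ N : ℕ, 1 ≤ N ∧ ∀ i, v i = N ∨ v i = ⊤ := by
  by_cases hex : ∃ i, v i ≠ ⊤
  · obtain ⟨i, hi⟩ := hex
    obtain ⟨N, hN⟩ := ENat.ne_top_iff_exists.1 hi
    refine ⟨N, ?_, fun j => ?_⟩
    · have := h1 i
      rw [← hN] at this
      exact_mod_cast this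
    · by_cases hj : v j = ⊤
      · exact Or.inr hj
      · exact Or.inl (by rw [hN]; exact le_antisymm (h j i hj) (h i j hi))
  · push Not at hex
    exact ⟨1, le_rfl, fun i => Or.inr (hex i)⟩

section Family

variable (T) (X : 𝒱.Obj) [Nontrivial (T.W.H X)] {J : Type} {E : J → Type}
  [∀ a, Field (E a)] [∀ a, Algebra T.W.K (E a)] (hE : ∀ a, Nonempty (E a →+* ℂ))
  {Δ : J → Type} [∀ a, Group (Δ a)] (G : ∀ a, GaloisData (baseW T.W (E a)) (Δ a))

include hE in
/-- **The main theorem.** -/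
theorem main : ∃ (N : ℕ) (H : ℕ∞) (t : J → ℕ∞), 1 ≤ N ∧ (H = N ∨ H = ⊤) ∧
    (∀ a, t a = N ∨ t a = ⊤) ∧
    HasIndex (fun n => hodgeDim T (pw X n)) (fun n => motDim T.W (pw X n)) H ∧
    (∀ a, HasIndex (fun n => tateDim (G a) (pw X n)) (fun n => motDim T.W (pw X n)) (t a)) ∧
    (H = 1 ↔ ∀ n, HodgeMotivated T (pw X n)) ∧
    (∀ a, t a = 1 ↔ ∀ n, TateMotivated (G a) (pw X n)) ∧
    (H ≠ ⊤ → ∀ a n, HodgeIsTate (G a) (pw X n)) ∧
    (∀ a, t a ≠ ⊤ → ∀ n, TateIndependent G a (pw X n)) ∧
    (∀ a, H ≠ ⊤ → t a ≠ ⊤ → ∀ n, MumfordTateOn (G a) (pw X n)) := by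
  classical
  obtain ⟨H, hH1, hH2, hH3⟩ := exists_indH T X
  choose t ht1 ht2 ht3 using fun a => exists_indT (X := X) (G a)
  have hHI := hasIndex_hodge (T := T) hH2
  have htI := fun a => hasIndex_tate (G a) (ht2 a)
  have key1 : H ≠ ⊤ → ∀ a, H ≤ t a := by
    intro h a
    refine ind_le hHI (htI a) fun n => ?_
    exact (Submodule.finrank_mono (hodge_le_rat (G a) hH2 h n)).trans
      (finrank_rat_le (G a) (pw X n))
  have key2 : ∀ a, t a ≠ ⊤ → t a ≤ H := by
    intro a h
    obtain ⟨τ⟩ := hE a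
    refine ind_le (htI a) hHI fun n => ?_
    exact (finrank_tate_le τ (ht2 a) h n).trans (Submodule.finrank_mono (rat_le_hodge (ht2 a) h n))
  have key3 : ∀ a b, t a ≠ ⊤ → t a ≤ t b := by
    intro a b h
    obtain ⟨τ⟩ := hE a
    refine ind_le (htI a) (htI b) fun n => ?_
    exact (finrank_tate_le τ (ht2 a) h n).trans
      ((Submodule.finrank_mono (rat_le_rat (G b) (ht2 a) h n)).trans
        (finrank_rat_le (G b) (pw X n)))
  obtain ⟨N, hN1, hN⟩ := common_value (fun i : Option J => i.elim H t)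
    (by rintro (_ | a)
        · exact hH1
        · exact ht1 a)
    (by rintro (_ | a) (_ | b) h
        · exact le_rfl
        · exact key1 h b
        · exact key2 a h
        · exact key3 a b h)
  have hrat : ∀ a, t a ≠ ⊤ → ∀ n j c, IsTate (G a) (pw X n) j (em T.W (E a) c) →
      IsHodgeTate G (pw X n) j c := fun a ha n j c hc =>
    ⟨rat_hodge (ht2 a) ha hc, fun b => rat_tate (G b) (ht2 a) ha hc⟩
  refine ⟨N, H, t, hN1, hN none, fun a => hN (some a), hHI, htI, ?_, fun a => ?_,
    fun h a n j c hc => hodge_tate (G a) hH2 h hc, fun a ha n j c => ⟨fun hc => ?_,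
      fun hc => span_tate (G a) (fun c hc => hc.2 a) hc⟩,
    fun a hH ha n j c => ⟨fun hc => ?_,
      fun hc => span_tate (G a) (fun c hc => hodge_tate (G a) hH2 hH hc) hc⟩⟩
  · rw [hH3]
    exact forall_congr' fun n => hodgeMotivated_iff T (pw X n)
  · rw [ht3 a]
    exact forall_congr' fun n => tateMotivated_iff (G a) (pw X n)
  · obtain ⟨τ⟩ := hE a
    refine Submodule.span_mono ?_ (tate_le_base τ (ht2 a) ha hc)
    rintro _ ⟨c', hc', rfl⟩
    exact ⟨c', hrat a ha n j c' hc', rfl⟩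
  · obtain ⟨τ⟩ := hE a
    refine Submodule.span_mono ?_ (tate_le_base τ (ht2 a) ha hc)
    rintro _ ⟨c', hc', rfl⟩
    exact ⟨c', rat_hodge (ht2 a) ha hc', rfl⟩

end Family

end Pool.Agent.N132.HT
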