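import Pool.Agent.Y121.AH.ZeroOne

/-!
# Classes which are finitely generated over a system of classes have finite orbits

Let `S ≤ T` be systems of cohomology classes such that all classes of `T` on the powers of `X` are
obtained from the classes of `T` on one variety `P` by correspondences in `S`. Let a family of
operators (for example the elements of a Galois group, or the elements of the Mumford-Tate group)
act on the cohomology, compatible with products, pull-backs and push-forwards. Then the operators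
which fix finitely many elements of `S` (depending on `v`) map a class `v` of `T` on a power of `X`
to finitely many elements.
-/

open CategoryTheory AlgebraicGeometry

set_option autoImplicit false
set_option linter.unusedSectionVars false

universe u

namespace Pool.Agent.N132.HT

open Module
open Pool.Agent.H914 Pool.Agent.H914.VarClass Pool.Agent.H914.VarClass.Obj
  Pool.Agent.H914.WeilCohomology Pool.Agent.Y133.Half Pool.Agent.Y121.AH

variable {k : Type u} [Field k] {𝒱 : VarClass k} {ops : CycleOps 𝒱}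

/-- A family of operators on the cohomology of all varieties which is compatible (on the classes of
even degree) with the degrees, products, pull-backs and push-forwards. -/
structure Ops (V : WeilCohomology.{u, 0} ops) (I : Type) where
  /-- the operators -/
  op : I → ∀ Z : 𝒱.Obj, V.H Z →ₗ[V.K] V.H Z
  gr : ∀ (i : I) {Z : 𝒱.Obj} {j : ℕ} {x : V.H Z}, x ∈ V.gr Z (2 * j) →
    op i Z x ∈ V.gr Z (2 * j)
  mul : ∀ (i : I) {Z : 𝒱.Obj} {a b : V.H Z}, a ∈ PH V Z 0 → b ∈ PH V Z 0 →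
    op i Z (a * b) = op i Z a * op i Z b
  map : ∀ (i : I) {X Y : 𝒱.Obj} (f : X ⟶ Y) {b : V.H Y}, b ∈ PH V Y 0 →
    op i X (V.map f b) = V.map f (op i Y b)
  push : ∀ (i : I) {X Y : 𝒱.Obj} (f : X ⟶ Y) {a : V.H X}, a ∈ PH V X 0 →
    op i Y (V.push f a) = V.push f (op i X a)

variable {V : WeilCohomology.{u, 0} ops} {I : Type} (O : Ops V I) {X Y Z P : 𝒱.Obj}

theorem Ops.even (i : I) {x : V.H Z} (hx : x ∈ PH V Z 0) : O.op i Z x ∈ PH V Z 0 := by
  refine PH.ind (p := fun x => O.op i Z x ∈ PH V Z 0) ?_ ?_ ?_ hx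
  · intro a ha x hx
    obtain ⟨j, rfl⟩ : ∃ j, a = 2 * j := ⟨a / 2, by omega⟩
    exact PH.of' ha (O.gr i hx)
  · rw [map_zero]; exact Submodule.zero_mem _
  · intro x y hx hy; rw [map_add]; exact Submodule.add_mem _ hx hy

theorem ev_mul {a b : V.H Z} (ha : a ∈ PH V Z 0) (hb : b ∈ PH V Z 0) :
    a * b ∈ PH V Z 0 := by
  have h := PH.mul (a := 0) (b := 0) ha hb
  exact h

theorem Ops.corr (i : I) {z : V.H (Y.prod Z)} {x : V.H Y} (hz : z ∈ PH V (Y.prod Z) 0)
    (hx : x ∈ PH V Y 0) :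
    O.op i Z (V.corr z x) = V.corr (O.op i (Y.prod Z) z) (O.op i Y x) := by
  have h1 : V.map (fst Y Z) x ∈ PH V (Y.prod Z) 0 := PH.map (fst Y Z) hx
  have h2 : z * V.map (fst Y Z) x ∈ PH V (Y.prod Z) 0 := ev_mul hz h1
  have e3 := O.push i (snd Y Z) h2
  have e4 := O.mul i hz h1
  have e5 := O.map i (fst Y Z) hx
  rw [corr_apply, corr_apply, e3, e4, e5]

theorem Ops.xpw (i : I) {v : V.H Z} (hv : v ∈ PH V Z 0) :
    ∀ m, O.op i (pw Z m) (xpw V v m) = Pool.Agent.Y121.AH.xpw V (O.op i Z v) m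
  | 0 => rfl
  | m + 1 => by
    have h1 : Pool.Agent.Y121.AH.xpw V v m ∈ PH V (pw Z m) 0 := xpw_even hv m
    have h : O.op i ((pw Z m).prod Z) (xp V (Pool.Agent.Y121.AH.xpw V v m) v) =
        xp V (Pool.Agent.Y121.AH.xpw V (O.op i Z v) m) (O.op i Z v) := by
      rw [xp, O.mul i (PH.map _ h1) (PH.map _ hv), O.map i _ h1, O.map i _ hv,
        Ops.xpw i hv m, xp]
    exact h

variable {W : WeilCohomology.{u, 0} ops} (R : Rlz W V)

theorem E_even {x : W.H Z} (hx : x ∈ PH W Z 0) : R.E Z x ∈ PH V Z 0 := by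
  refine PH.ind (p := fun x => R.E Z x ∈ PH V Z 0) ?_ ?_ ?_ hx
  · intro a ha x hx
    exact PH.of' ha (R.gr hx)
  · rw [map_zero]; exact Submodule.zero_mem _
  · intro x y hx hy; rw [map_add]; exact Submodule.add_mem _ hx hy

theorem E_corr (z : W.H (Y.prod Z)) (x : W.H Y) :
    R.E Z (W.corr z x) = (R.c ^ Y.dim)⁻¹ • V.corr (R.E _ z) (R.E Y x) := by
  have hne : R.c ^ Y.dim ≠ 0 := pow_ne_zero _ R.ne
  have hne' : R.c ^ Z.dim ≠ 0 := pow_ne_zero _ R.ne
  rw [corr_apply, corr_apply]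
  have h := R.push (snd Y Z) (z * W.map (fst Y Z) x)
  rw [dim_prod, map_mul (R.E (Y.prod Z)), R.nat] at h
  have h2 : R.c ^ Z.dim • (R.c ^ Y.dim • R.E Z (W.push (snd Y Z) (z * W.map (fst Y Z) x))) =
      R.c ^ Z.dim • (V.push (snd Y Z) (R.E _ z * V.map (fst Y Z) (R.E Y x))) := by
    rw [← h, smul_smul, ← pow_add, Nat.add_comm Z.dim]
  have h3 := smul_right_injective _ hne' h2
  beta_reduce at h3
  rw [← h3, smul_smul, inv_mul_cancel₀ hne, one_smul]

theorem E_xpw' (v : W.H Z) : ∀ m, R.E (pw Z m) (xpw W v m) = xpw V (R.E Z v) m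
  | 0 => rfl
  | m + 1 => by
    have h : R.E ((pw Z m).prod Z) (xp W (xpw W v m) v) =
        xp V (R.E (pw Z m) (xpw W v m)) (R.E Z v) := by
      rw [xp, map_mul, R.nat, R.nat, xp]
    rw [E_xpw' v m] at h
    exact h

theorem xpw_mem' (S : Sys W) {v : W.H Z} (hv : v ∈ S.C Z) :
    ∀ m, xpw W v m ∈ S.C (pw Z m)
  | 0 => hv
  | m + 1 => by
    have h := Sys.xp_mem_C S (xpw_mem' S hv m) hv
    exact h

/-- The operators with the indices in `J` fix the images of the elements of `F`. -/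
def Fixes (F : Set (Σ Y : 𝒱.Obj, W.H Y)) (i : I) : Prop :=
  ∀ p ∈ F, O.op i p.1 (R.E p.1 p.2) = R.E p.1 p.2

/-- Linear relations on the generating variety are inherited. -/
theorem rel_of_gen {S T : Sys W} {x : W.H Z} (hx : x ∈ gen S P Z (T.C P)) :
    ∃ F : Set (Σ Y : 𝒱.Obj, W.H Y), F.Finite ∧ (∀ p ∈ F, p.2 ∈ S.C p.1) ∧
      ∀ (n : ℕ) (g : Fin n → I) (μ : Fin n → V.K), (∀ a, Fixes O R F (g a)) →
        (∑ a, μ a • O.op (g a) P) = 0 → ∑ a, μ a • O.op (g a) Z (R.E Z x) = 0 := by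
  induction hx using Submodule.span_induction with
  | mem x hx =>
    obtain ⟨f, hf, t, ht, rfl⟩ := hx
    obtain ⟨z, hz, rfl⟩ := Sys.mem_Op.1 hf
    refine ⟨{⟨P.prod Z, z⟩}, Set.finite_singleton _, ?_, fun n g μ hg hμ => ?_⟩
    · rintro p rfl
      exact hz
    · have hz0 : R.E _ z ∈ PH V (P.prod Z) 0 := E_even R (S.even hz)
      have ht0 : R.E P t ∈ PH V P 0 := E_even R (T.even ht)
      have h1 : ∀ a, O.op (g a) Z (R.E Z (W.corr z t)) =
          (R.c ^ P.dim)⁻¹ • V.corr (R.E _ z) (O.op (g a) P (R.E P t)) := by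
        intro a
        have h2 : O.op (g a) (P.prod Z) (R.E _ z) = R.E _ z := hg a ⟨P.prod Z, z⟩ rfl
        rw [E_corr, map_smul, O.corr _ hz0 ht0, h2]
      have h3 : (∑ a, μ a • O.op (g a) P) (R.E P t) = 0 := by rw [hμ]; rfl
      rw [LinearMap.sum_apply] at h3
      simp only [LinearMap.smul_apply] at h3
      calc ∑ a, μ a • O.op (g a) Z (R.E Z (W.corr z t))
          = ∑ a, μ a • ((R.c ^ P.dim)⁻¹ • V.corr (R.E _ z) (O.op (g a) P (R.E P t))) :=
            Finset.sum_congr rfl fun a _ => by rw [h1]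
        _ = (R.c ^ P.dim)⁻¹ • V.corr (R.E _ z) (∑ a, μ a • O.op (g a) P (R.E P t)) := by
            rw [map_sum, Finset.smul_sum]
            refine Finset.sum_congr rfl fun a _ => ?_
            rw [map_smul, smul_comm]
        _ = 0 := by rw [h3, map_zero, smul_zero]
  | zero =>
    refine ⟨∅, Set.finite_empty, fun p hp => hp.elim, fun n g μ _ _ => ?_⟩
    simp
  | add x y _ _ hx hy =>
    obtain ⟨F, hF, hFS, h1⟩ := hx
    obtain ⟨F', hF', hFS', h2⟩ := hy
    refine ⟨F ∪ F', hF.union hF', fun p hp => hp.elim (hFS p) (hFS' p), fun n g μ hg hμ => ?_⟩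
    have e1 := h1 n g μ (fun a p hp => hg a p (Or.inl hp)) hμ
    have e2 := h2 n g μ (fun a p hp => hg a p (Or.inr hp)) hμ
    simp only [map_add, smul_add, Finset.sum_add_distrib]
    rw [e1, e2, add_zero]
  | smul r x _ hx =>
    obtain ⟨F, hF, hFS, h1⟩ := hx
    refine ⟨F, hF, hFS, fun n g μ hg hμ => ?_⟩
    have e1 := h1 n g μ hg hμ
    have e2 : ∀ a, μ a • O.op (g a) Z (R.E Z (r • x)) =
        R.s r • (μ a • O.op (g a) Z (R.E Z x)) := by
      intro a
      rw [R.semi, map_smul, smul_comm]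
    rw [Finset.sum_congr rfl fun a _ => e2 a, ← Finset.smul_sum, e1, smul_zero]

/-- The even part. -/
theorem exists_even (y : V.H Z) : ∃ y₀ ∈ PH V Z 0, ∀ u ∈ PH V Z 0,
    V.tr Z (u * y) = V.tr Z (u * y₀) := by
  refine gr_induction (V.isInternal Z) (p := fun y => ∃ y₀ ∈ PH V Z 0, ∀ u ∈ PH V Z 0,
    V.tr Z (u * y) = V.tr Z (u * y₀)) ?_ ?_ y
  · intro i y hy
    by_cases hi : i % 2 = 0
    · exact ⟨y, PH.of' (by omega) hy, fun u _ => rfl⟩
    · refine ⟨0, Submodule.zero_mem _, fun u hu => ?_⟩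
      rw [mul_zero, map_zero]
      have h1 := PH.mul hu (PH.of (W := V) hy)
      exact PH.tr_odd h1 (by omega)
  · rintro a b ⟨a₀, ha, ha'⟩ ⟨b₀, hb, hb'⟩
    refine ⟨a₀ + b₀, Submodule.add_mem _ ha hb, fun u hu => ?_⟩
    rw [mul_add, map_add, ha' u hu, hb' u hu, mul_add, map_add]

/-- Distinct nonzero even classes can be separated by an even class. -/
theorem exists_separating {n : ℕ} (v : Fin n → V.H Z) (hv : ∀ a, v a ∈ PH V Z 0)
    (hinj : Function.Injective v) (h0 : ∀ a, v a ≠ 0) :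
    ∃ y ∈ PH V Z 0, (Function.Injective fun a => V.tr Z (v a * y)) ∧
      ∀ a, V.tr Z (v a * y) ≠ 0 := by
  classical
  have hinf : Infinite V.K := inferInstance
  -- the classes and their differences
  let w : (Fin n ⊕ {p : Fin n × Fin n // p.1 ≠ p.2}) → V.H Z
    | Sum.inl a => v a
    | Sum.inr p => v p.1.1 - v p.1.2
  have hw : ∀ a, w a ≠ 0 := by
    rintro (a | p)
    · exact h0 a
    · intro h
      exact p.2 (hinj (sub_eq_zero.1 h))
  have hdual : ∀ a, ∃ y, (V.tr Z ∘ₗ LinearMap.mulLeft V.K (w a)) y ≠ 0 := by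
    intro a
    by_contra hcon
    push Not at hcon
    exact hw a (V.nondeg (w a) fun b => hcon b)
  obtain ⟨y, hy⟩ := Module.Dual.exists_forall_ne_zero_of_forall_exists
    (fun a => (V.tr Z ∘ₗ LinearMap.mulLeft V.K (w a) : V.H Z →ₗ[V.K] V.K)) hdual
  obtain ⟨y₀, hy₀, hyy⟩ := exists_even y
  refine ⟨y₀, hy₀, fun a b hab => ?_, fun a => ?_⟩
  · by_contra hne
    apply hy (Sum.inr ⟨(a, b), hne⟩)
    change V.tr Z ((v a - v b) * y) = 0
    beta_reduce at hab
    rw [hyy _ (Submodule.sub_mem _ (hv a) (hv b)), sub_mul, map_sub, hab, sub_self]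
  · rw [← hyy _ (hv a)]
    exact hy (Sum.inl a)

/-- **The orbits are finite.** -/
theorem finite_values {S T : Sys W} (hgen : GenBy S T X P) {n : ℕ} {v : W.H (pw X n)}
    (hv : v ∈ T.C (pw X n)) :
    ∃ F : Set (Σ Y : 𝒱.Obj, W.H Y), F.Finite ∧ (∀ p ∈ F, p.2 ∈ S.C p.1) ∧
      {y | ∃ i, Fixes O R F i ∧ y = O.op i (pw X n) (R.E (pw X n) v)}.Finite := by
  classical
  set D : ℕ := finrank V.K (V.H P →ₗ[V.K] V.H P) with hD
  have hrel : ∀ m : Fin (D + 1), ∃ F : Set (Σ Y : 𝒱.Obj, W.H Y), F.Finite ∧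
      (∀ p ∈ F, p.2 ∈ S.C p.1) ∧
      ∀ (r : ℕ) (g : Fin r → I) (μ : Fin r → V.K), (∀ a, Fixes O R F (g a)) →
        (∑ a, μ a • O.op (g a) P) = 0 →
        ∑ a, μ a • O.op (g a) (pw (pw X n) m) (R.E _ (xpw W v m)) = 0 := by
    intro m
    obtain ⟨r, hr⟩ := pw_pw X n (m : ℕ)
    exact rel_of_gen O R (hgen r _ hr (xpw_mem' T hv m))
  choose F hF hFS hFr using hrel
  refine ⟨⋃ m, F m, Set.finite_iUnion hF, fun p hp => ?_, ?_⟩
  · obtain ⟨m, hm⟩ := Set.mem_iUnion.1 hp
    exact hFS m p hm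
  set A : Set (V.H (pw X n)) :=
    {y | ∃ i, Fixes O R (⋃ m, F m) i ∧ y = O.op i (pw X n) (R.E (pw X n) v)} with hA
  have hv0 : v ∈ PH W (pw X n) 0 := T.even hv
  have hE0 : R.E _ v ∈ PH V (pw X n) 0 := E_even R hv0
  by_contra hinf
  have hinf' : (A \ {0}).Infinite := Set.Infinite.sdiff hinf (Set.finite_singleton 0)
  obtain ⟨s, hsA, hs⟩ := hinf'.exists_subset_card_eq (D + 1)
  let e : Fin (D + 1) ≃ s := (Fintype.equivFinOfCardEq (by rw [Fintype.card_coe, hs])).symm
  have hmem : ∀ a : Fin (D + 1), ∃ i, Fixes O R (⋃ m, F m) i ∧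
      (e a : V.H (pw X n)) = O.op i (pw X n) (R.E (pw X n) v) := fun a => (hsA (e a).2).1
  choose g hg hge using hmem
  have hne : ∀ a : Fin (D + 1), (e a : V.H (pw X n)) ≠ 0 := fun a => (hsA (e a).2).2
  have hinj : Function.Injective fun a => (e a : V.H (pw X n)) :=
    Subtype.val_injective.comp e.injective
  have heven : ∀ a, (e a : V.H (pw X n)) ∈ PH V (pw X n) 0 := fun a => by
    rw [hge a]; exact O.even _ hE0
  obtain ⟨y, hy, hyinj, hy0⟩ := exists_separating (fun a => (e a : V.H (pw X n))) heven hinj hne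
  -- a linear relation
  have hdep : ¬ LinearIndependent V.K fun a => O.op (g a) P := by
    intro h
    have h1 := h.fintype_card_le_finrank
    rw [Fintype.card_fin] at h1
    omega
  obtain ⟨μ, hμ, b, hb⟩ := Fintype.not_linearIndependent_iff.1 hdep
  have hsum : ∀ m : Fin (D + 1), ∑ a, μ a * V.tr _ ((e a : V.H (pw X n)) * y) ^ ((m : ℕ) + 1) =
      0 := by
    intro m
    have h1 := hFr m (D + 1) g μ (fun a p hp => hg a p (Set.mem_iUnion.2 ⟨m, hp⟩)) hμ
    have h2 : ∀ a, O.op (g a) (pw (pw X n) m) (R.E _ (xpw W v m)) =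
        xpw V (e a : V.H (pw X n)) m := by
      intro a
      rw [E_xpw', O.xpw _ hE0, ← hge a]
    have h3 := congrArg (fun z => V.tr _ (z * xpw V y m)) h1
    beta_reduce at h3
    rw [zero_mul, map_zero, Finset.sum_mul, map_sum] at h3
    rw [← h3]
    refine Finset.sum_congr rfl fun a _ => ?_
    rw [h2, smul_mul_assoc, map_smul, smul_eq_mul, tr_xpw (heven a) hy]
  have hvan := Matrix.eq_zero_of_forall_pow_sum_mul_pow_eq_zero
    (f := fun a => V.tr _ ((e a : V.H (pw X n)) * y))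
    (v := fun a => μ a * V.tr _ ((e a : V.H (pw X n)) * y)) hyinj (fun m => by
      rw [← hsum m]
      refine Finset.sum_congr rfl fun a _ => ?_
      rw [pow_succ']
      ring)
  have h4 := congrFun hvan b
  rw [Pi.zero_apply] at h4
  exact hb ((mul_eq_zero.1 h4).resolve_right (hy0 b))

end Pool.Agent.N132.HT
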