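import Pool.Agent.N132.HT.Ext
import Pool.Agent.Y133.Half.PairBase

/-!
# Tate classes which are finitely generated over rational Tate classes are rational
-/

open CategoryTheory AlgebraicGeometry TensorProduct

set_option autoImplicit false
set_option linter.unusedSectionVars false

universe u

namespace Pool.Agent.N132.HT

open Module
open Pool.Agent.H914 Pool.Agent.H914.VarClass Pool.Agent.H914.VarClass.Obj
  Pool.Agent.H914.WeilCohomology Pool.Agent.Y133.Half Pool.Agent.Y121.AH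
open Pool.Agent.Y132.AH (GaloisData IsTate isTate_zero isTate_add isTate_smul)

variable {k : Type u} [Field k] {𝒱 : VarClass k} {ops : CycleOps 𝒱}

section General

variable {W : WeilCohomology.{u, 0} ops} {L M : Type} [Field L] [Field M] [Algebra W.K L]
  [Algebra W.K M] (τ τ' : L →ₐ[W.K] M) {X Y Z P : 𝒱.Obj} {Γ : Type} [Group Γ]
  (G : GaloisData (baseW W L) Γ)

/-- All classes of the system are Tate classes. -/
def TateSys₀ (G : GaloisData (baseW W L) Γ) (S₀ : Sys W) : Prop :=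
  ∀ Z, ∀ x ∈ S₀.C Z, ∃ Δ : Subgroup Γ, Δ.FiniteIndex ∧
    ∀ g ∈ Δ, tw G g Z (em W L x) = em W L x

theorem fix_base {S₀ : Sys W} (hS : TateSys₀ G S₀) {x : (baseW W L).H Z}
    (hx : x ∈ (S₀.base L).C Z) : ∃ Δ : Subgroup Γ, Δ.FiniteIndex ∧
      ∀ g ∈ Δ, lft τ (tw G g Z) (psi W τ' Z x) = psi W τ' Z x := by
  refine base_ind (p := S₀.C Z) (q := fun x => ∃ Δ : Subgroup Γ, Δ.FiniteIndex ∧
      ∀ g ∈ Δ, lft τ (tw G g Z) (psi W τ' Z x) = psi W τ' Z x) ?_ ?_ ?_ hx
  · refine ⟨⊤, inferInstance, fun g _ => ?_⟩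
    rw [map_zero, map_zero]
  · rintro x y ⟨Δ, hΔ, hx⟩ ⟨Δ', hΔ', hy⟩
    refine ⟨Δ ⊓ Δ', inferInstance, fun g hg => ?_⟩
    rw [map_add, map_add, hx g hg.1, hy g hg.2]
  · intro l a ha
    obtain ⟨Δ, hΔ, h⟩ := hS Z a ha
    refine ⟨Δ, hΔ, fun g hg => ?_⟩
    rw [psi_smul, psi_em, map_smul, lft_em, h g hg, psi_em]

/-- **Conjugates of finitely generated Tate classes.** -/
theorem tate_lam {S₀ : Sys W} {T' : Sys (baseW W L)} (hgen : GenBy (S₀.base L) T' X P)
    (hS : TateSys₀ G S₀) (lam : Fnl W τ)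
    {n j : ℕ} {v : (baseW W L).H (pw X n)} (hv : v ∈ T'.C (pw X n))
    (hj : v ∈ (baseW W L).gr (pw X n) (2 * j)) :
    IsTate G (pw X n) j (lamH lam (pw X n) (psi W τ' (pw X n) v)) := by
  classical
  obtain ⟨F, hF, hFS, hfin⟩ := finite_values ((opsGal G).ext τ) (psiRlz τ') hgen hv
  have hFf : Finite F := hF
  have h1 : ∀ p : F, ∃ Δ : Subgroup Γ, Δ.FiniteIndex ∧
      ∀ g ∈ Δ, lft τ (tw G g p.1.1) (psi W τ' p.1.1 p.1.2) = psi W τ' p.1.1 p.1.2 := fun p =>
    fix_base τ τ' G hS (hFS p.1 p.2)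
  choose Δ hΔ hfix using h1
  have hind : (⨅ p, Δ p).FiniteIndex := Subgroup.finiteIndex_iInf hΔ
  refine isTate_of_finite G (lamH_gr lam (psi_gr τ' hj)) (⨅ p, Δ p)
    ((hfin.image (lamH lam (pw X n))).subset ?_)
  rintro y ⟨g, hg, rfl⟩
  refine ⟨lft τ (tw G g (pw X n)) (psi W τ' (pw X n) v), ⟨g, fun p hp =>
    hfix ⟨p, hp⟩ g ((Subgroup.mem_iInf.1 hg) ⟨p, hp⟩), rfl⟩, ?_⟩
  exact lamH_lft lam _ _

/-- The Tate classes of degree `2 j` form a subspace. -/
def tateSub (G : GaloisData (baseW W L) Γ) (Z : 𝒱.Obj) (j : ℕ) :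
    Submodule (baseW W L).K ((baseW W L).H Z) where
  carrier := {c | IsTate G Z j c}
  zero_mem' := isTate_zero G Z j
  add_mem' := isTate_add G
  smul_mem' r _ h := isTate_smul G r h

end General

section Hodge

variable {T : HodgeTheory ops} {L : Type} [Field L] [Algebra T.W.K L] {X Y Z P : 𝒱.Obj}
  {Γ : Type} [Group Γ] (G : GaloisData (baseW T.W L) Γ)

/-- **Rationality of the Tate classes.** If the Tate classes on the powers of `X` are finitely
generated over a system of rational Tate classes then they are linear combinations of rational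
Tate classes. -/
theorem tate_rational (τ : L →+* ℂ) {S₀ : Sys T.W} {T' : Sys (baseW T.W L)}
    (hgen : GenBy (S₀.base L) T' X P) (hS : TateSys₀ G S₀) {n j : ℕ}
    {v : (baseW T.W L).H (pw X n)} (hv : v ∈ T'.C (pw X n))
    (hj : v ∈ (baseW T.W L).gr (pw X n) (2 * j)) :
    v ∈ Submodule.span (baseW T.W L).K
      {x | ∃ c', IsTate G (pw X n) j (em T.W L c') ∧ em T.W L c' = x} := by
  classical
  let b := Basis.ofVectorSpace T.W.K L
  have hw0 : ∃ f : (Basis.ofVectorSpaceIndex T.W.K L) →₀ T.W.H (pw X n),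
      (f.sum fun i m => b i ⊗ₜ[T.W.K] m) = (v : L ⊗[T.W.K] T.W.H (pw X n)) :=
    TensorProduct.eq_repr_basis_left b v
  obtain ⟨f, hf⟩ := hw0
  have hf' : v = ∑ i ∈ f.support, (show (baseW T.W L).K from b i) • em T.W L (f i) := by
    rw [← hf, Finsupp.sum]
    exact Finset.sum_congr rfl fun i _ => tmul_eq (W := T.W) (b i) (f i)
  have key : ∀ i ∈ f.support, IsTate G (pw X n) j (em T.W L (f i)) := by
    intro i hi
    by_contra hc
    obtain ⟨φ, hφ, hφp⟩ := Submodule.exists_dual_map_eq_bot_of_notMem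
      (p := tateSub G (pw X n) j) hc inferInstance
    apply hφ
    have h0 := aut_indep (indep_basis b τ) _ f.support rfl
      (fun i => τ (φ (em T.W L (f i)))) ?_ i hi
    · exact (map_eq_zero τ).1 h0
    intro g
    by_contra hne
    obtain ⟨lam, hl⟩ := exists_lam (ratAlg T τ) hne
    apply hl
    have h1 := tate_lam (ratAlg T τ) (ratAlg T (g.toRingHom.comp τ)) G hgen hS lam hv hj
    have h2 : φ (lamH lam (pw X n) (psi T.W (ratAlg T (g.toRingHom.comp τ)) (pw X n) v)) = 0 := by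
      have h3 := Submodule.mem_map_of_mem (f := φ) (p := tateSub G (pw X n) j) h1
      rw [hφp, Submodule.mem_bot] at h3
      exact h3
    rw [hf', map_sum, map_sum, map_sum] at h2
    refine Eq.trans (map_sum lam.f _ _) (Eq.trans (Finset.sum_congr rfl fun i _ => ?_) h2)
    rw [psi_smul, psi_em, lamH_em, map_smul]
    have h3 : lam.f (kap T.W (ratAlg T τ) (φ (em T.W L (f i))) *
        kap T.W (ratAlg T (g.toRingHom.comp τ)) (b i)) =
      φ (em T.W L (f i)) * lam.f (kap T.W (ratAlg T (g.toRingHom.comp τ)) (b i)) :=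
      lam.lin _ _
    refine Eq.trans h3 ?_
    rw [smul_eq_mul]
    exact mul_comm _ _
  rw [hf']
  exact Submodule.sum_mem _ fun i hi =>
    Submodule.smul_mem _ _ (Submodule.subset_span ⟨_, key i hi, rfl⟩)

end Hodge

end Pool.Agent.N132.HT
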