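import Pool.Agent.N132.HT.Gal

/-!
# Extension of operators along an embedding of the coefficients
-/

open CategoryTheory AlgebraicGeometry TensorProduct

set_option autoImplicit false
set_option linter.unusedSectionVars false

universe u

namespace Pool.Agent.N132.HT

open Module
open Pool.Agent.H914 Pool.Agent.H914.VarClass Pool.Agent.H914.VarClass.Obj
  Pool.Agent.H914.WeilCohomology Pool.Agent.Y133.Half Pool.Agent.Y121.AH

variable {k : Type u} [Field k] {𝒱 : VarClass k} {ops : CycleOps 𝒱}
  {W : WeilCohomology.{u, 0} ops} {L M : Type} [Field L] [Field M] [Algebra W.K L]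
  [Algebra W.K M] (τ : L →ₐ[W.K] M) {X Y Z P : 𝒱.Obj} {I : Type}

theorem tmul_aux (l : L) (a : W.H Z) :
    (l ⊗ₜ[W.K] a : L ⊗[W.K] W.H Z) = l • ((1 : L) ⊗ₜ[W.K] a) := by
  rw [TensorProduct.smul_tmul', smul_eq_mul, mul_one]

/-- Induction for the elements of an extended subspace. -/
theorem base_ind {p : Submodule W.K (W.H Z)} {q : (baseW W L).H Z → Prop} (h0 : q 0)
    (hadd : ∀ x y, q x → q y → q (x + y))
    (h : ∀ (l : (baseW W L).K) (a : W.H Z), a ∈ p → q (l • em W L a)) {x : (baseW W L).H Z}
    (hx : x ∈ (p.baseChange L : Submodule L (L ⊗[W.K] W.H Z))) : q x := by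
  refine base_induction (P := q) h0 hadd (fun l a ha => ?_) hx
  have h1 := h l a ha
  exact (congrArg q (tmul_aux l a)).mpr h1

theorem ind_em {q : (baseW W L).H Z → Prop} (h0 : q 0) (hadd : ∀ x y, q x → q y → q (x + y))
    (h : ∀ (l : (baseW W L).K) (a : W.H Z), q (l • em W L a)) (x : (baseW W L).H Z) : q x := by
  refine tmul_ind (p := q) h0 hadd (fun l a => ?_) x
  have h1 := h l a
  exact (congrArg q (tmul_aux l a)).mpr h1

theorem gr_ind {i : ℕ} {q : (baseW W L).H Z → Prop} (h0 : q 0)
    (hadd : ∀ x y, q x → q y → q (x + y))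
    (h : ∀ (l : (baseW W L).K) (a : W.H Z), a ∈ W.gr Z i → q (l • em W L a))
    {x : (baseW W L).H Z} (hx : x ∈ (baseW W L).gr Z i) : q x :=
  base_ind (p := W.gr Z i) h0 hadd h hx

/-- Induction for the even classes. -/
theorem ev_ind {q : (baseW W L).H Z → Prop} (h0 : q 0) (hadd : ∀ x y, q x → q y → q (x + y))
    (h : ∀ (l : (baseW W L).K) (j : ℕ) (a : W.H Z), a ∈ W.gr Z (2 * j) → q (l • em W L a))
    {x : (baseW W L).H Z} (hx : x ∈ PH (baseW W L) Z 0) : q x := by
  refine even_ind (V := baseW W L) (p := q) ?_ h0 hadd hx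
  intro j x hx
  exact gr_ind h0 hadd (fun l a ha => h l j a ha) hx

theorem em_even {j : ℕ} {a : W.H Z} (ha : a ∈ W.gr Z (2 * j)) :
    em W L a ∈ PH (baseW W L) Z 0 :=
  PH.of' (b := 0) (Nat.mul_mod_right 2 j) (em_gr ha)

/-- The linear map `x ↦ ψ (A (1 ⊗ x))`. -/
noncomputable def pre (A : (baseW W L).H Z →ₗ[(baseW W L).K] (baseW W L).H Z) :
    W.H Z →ₗ[W.K] (M ⊗[W.K] W.H Z) where
  toFun x := psi W τ Z (A (em W L x))
  map_add' x y := by
    rw [em_add, map_add, map_add]
    rfl
  map_smul' r x := by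
    have h1 : psi W τ Z (A (em W L (r • x))) = kap W τ (ex W L r) • psi W τ Z (A (em W L x)) := by
      rw [em_smul, map_smul, psi_smul]
    have h2 : kap W τ (ex W L r) = ex W M r := τ.commutes r
    rw [h1, h2]
    have h3 : ∀ y : M ⊗[W.K] W.H Z, (algebraMap W.K M r) • y = r • y := fun y =>
      algebraMap_smul M r y
    exact h3 _

/-- The extension of an operator on the cohomology with coefficients in `L`. -/
noncomputable def lft (A : (baseW W L).H Z →ₗ[(baseW W L).K] (baseW W L).H Z) :
    (baseW W M).H Z →ₗ[(baseW W M).K] (baseW W M).H Z :=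
  (LinearMap.liftBaseChange M (pre τ A) : M ⊗[W.K] W.H Z →ₗ[M] M ⊗[W.K] W.H Z)

theorem lft_em (A : (baseW W L).H Z →ₗ[(baseW W L).K] (baseW W L).H Z) (a : W.H Z) :
    lft τ A (em W M a) = psi W τ Z (A (em W L a)) := by
  have h : (LinearMap.liftBaseChange M (pre τ A) : M ⊗[W.K] W.H Z →ₗ[M] M ⊗[W.K] W.H Z)
      ((1 : M) ⊗ₜ[W.K] a) = (1 : M) • pre τ A a :=
    LinearMap.liftBaseChange_tmul M (pre τ A) (1 : M) a
  rw [one_smul] at h
  exact h

theorem lft_psi (A : (baseW W L).H Z →ₗ[(baseW W L).K] (baseW W L).H Z) (y : (baseW W L).H Z) :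
    lft τ A (psi W τ Z y) = psi W τ Z (A y) := by
  refine ind_em (q := fun y => lft τ A (psi W τ Z y) = psi W τ Z (A y)) ?_ ?_ ?_ y
  · simp only [map_zero]
  · intro x y hx hy; simp only [map_add, hx, hy]
  · intro l a
    rw [psi_smul, psi_em, map_smul, lft_em, map_smul, psi_smul]

/-- The extension of a family of operators. -/
noncomputable def Ops.ext (O : Ops (baseW W L) I) : Ops (baseW W M) I where
  op i Z := lft τ (O.op i Z)
  gr i Z j x hx := by
    refine gr_ind (q := fun x => lft τ (O.op i Z) x ∈ (baseW W M).gr Z (2 * j)) ?_ ?_ ?_ hx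
    · rw [map_zero]; exact Submodule.zero_mem _
    · intro x y hx hy
      rw [map_add]; exact Submodule.add_mem _ hx hy
    · intro m a ha
      rw [map_smul, lft_em]
      exact Submodule.smul_mem _ _ (psi_gr τ (O.gr i (em_gr ha)))
  mul i Z a b ha hb := by
    refine ev_ind (q := fun a => lft τ (O.op i Z) (a * b) =
      lft τ (O.op i Z) a * lft τ (O.op i Z) b) ?_ ?_ ?_ ha
    · simp only [zero_mul, map_zero]
    · intro x y hx hy; simp only [add_mul, map_add, hx, hy]
    intro l j a ha
    refine ev_ind (q := fun b => lft τ (O.op i Z) (l • em W M a * b) =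
      lft τ (O.op i Z) (l • em W M a) * lft τ (O.op i Z) b) ?_ ?_ ?_ hb
    · simp only [mul_zero, map_zero]
    · intro x y hx hy; simp only [mul_add, map_add, hx, hy]
    intro l' j' b hb
    have h1 : O.op i Z (em W L a * em W L b) = O.op i Z (em W L a) * O.op i Z (em W L b) :=
      O.mul i (em_even ha) (em_even hb)
    rw [smul_mul_smul_comm, ← em_mul, map_smul, lft_em, em_mul, h1, map_mul, map_smul, map_smul,
      lft_em, lft_em, smul_mul_smul_comm]
  map i X Y f b hb := by
    refine ev_ind (q := fun b => lft τ (O.op i X) ((baseW W M).map f b) =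
      (baseW W M).map f (lft τ (O.op i Y) b)) ?_ ?_ ?_ hb
    · simp only [map_zero]
    · intro x y hx hy; simp only [map_add, hx, hy]
    intro l j b hb
    have h1 : O.op i X ((baseW W L).map f (em W L b)) =
        (baseW W L).map f (O.op i Y (em W L b)) := O.map i f (em_even hb)
    rw [map_smul, em_map, map_smul, lft_em, ← em_map, h1, psi_map, map_smul, map_smul, lft_em]
  push i X Y f a ha := by
    refine ev_ind (q := fun a => lft τ (O.op i Y) ((baseW W M).push f a) =
      (baseW W M).push f (lft τ (O.op i X) a)) ?_ ?_ ?_ ha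
    · simp only [map_zero]
    · intro x y hx hy; simp only [map_add, hx, hy]
    intro l j a ha
    have h1 : O.op i Y ((baseW W L).push f (em W L a)) =
        (baseW W L).push f (O.op i X (em W L a)) := O.push i f (em_even ha)
    rw [map_smul, em_push, map_smul, lft_em, ← em_push, h1, psi_push, map_smul, map_smul, lft_em]

/-- The realisation in the cohomology with coefficients in `M`. -/
noncomputable def psiRlz : Rlz (baseW W L) (baseW W M) where
  s := kap W τ
  c := 1
  ne := one_ne_zero
  E X := psi W τ X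
  semi _ r a := psi_smul τ r a
  gr h := psi_gr τ h
  nat f b := psi_map τ f b
  push f a := by rw [one_pow, one_pow, one_smul, one_smul, psi_push]

/-- The realisation in the cohomology with coefficients in `M`. -/
noncomputable def emRlz (W : WeilCohomology.{u, 0} ops) (M : Type) [Field M] [Algebra W.K M] :
    Rlz W (baseW W M) where
  s := algebraMap W.K M
  c := 1
  ne := one_ne_zero
  E X := (Algebra.TensorProduct.includeRight : W.H X →ₐ[W.K] M ⊗[W.K] W.H X).toRingHom
  semi X r a := em_smul r a
  gr h := em_gr h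
  nat f b := (em_map f b).symm
  push f a := by
    rw [one_pow, one_pow, one_smul, one_smul]
    exact (em_push f a).symm

theorem emRlz_apply (M : Type) [Field M] [Algebra W.K M] (x : W.H X) :
    (emRlz W M).E X x = em W M x := rfl

section Functional

/-- A functional which is linear for the embedding `τ`. -/
structure Fnl (W : WeilCohomology.{u, 0} ops) {L M : Type} [Field L] [Field M] [Algebra W.K L]
    [Algebra W.K M] (τ : L →ₐ[W.K] M) where
  /-- the functional -/
  f : (baseW W M).K →+ (baseW W L).K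
  lin : ∀ (l : (baseW W L).K) (m : (baseW W M).K), f (kap W τ l * m) = l * f m

variable {τ} (lam : Fnl W τ)

/-- The functional as a linear map. -/
noncomputable def Fnl.toLin : M →ₗ[W.K] L where
  toFun := lam.f
  map_add' := map_add lam.f
  map_smul' r m := by
    have h := lam.lin (ex W L r) m
    have h2 : kap W τ (ex W L r) = ex W M r := τ.commutes r
    rw [h2] at h
    have e1 : r • m = algebraMap W.K M r * m := Algebra.smul_def r m
    rw [e1]
    exact h.trans (@Algebra.smul_def W.K L _ _ _ r (lam.f m)).symm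

/-- The map of the cohomology given by a functional. -/
noncomputable def lamH (Z : 𝒱.Obj) : (baseW W M).H Z →+ (baseW W L).H Z :=
  (TensorProduct.map lam.toLin (LinearMap.id : W.H Z →ₗ[W.K] W.H Z)).toAddMonoidHom

theorem lamH_em (m : (baseW W M).K) (a : W.H Z) :
    lamH lam Z (m • em W M a) = lam.f m • em W L a := by
  have h1 := tmul_aux (W := W) (L := M) m a
  have h2 := tmul_aux (W := W) (L := L) (lam.f m) a
  have h3 : (TensorProduct.map lam.toLin (LinearMap.id : W.H Z →ₗ[W.K] W.H Z))
      (TensorProduct.tmul W.K m a) = TensorProduct.tmul W.K (lam.toLin m) a :=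
    TensorProduct.map_tmul _ _ _ _
  have h4 := congrArg (TensorProduct.map lam.toLin (LinearMap.id : W.H Z →ₗ[W.K] W.H Z)) h1
  exact h4.symm.trans (h3.trans h2)

theorem lamH_smul_psi (m : (baseW W M).K) (y : (baseW W L).H Z) :
    lamH lam Z (m • psi W τ Z y) = lam.f m • y := by
  refine ind_em (q := fun y => lamH lam Z (m • psi W τ Z y) = lam.f m • y) ?_ ?_ ?_ y
  · simp only [map_zero, smul_zero]
  · intro x y hx hy; simp only [map_add, smul_add, hx, hy]
  · intro l a
    rw [psi_smul, psi_em, smul_smul, lamH_em, smul_smul, mul_comm m, lam.lin, mul_comm l]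

theorem lamH_lft (A : (baseW W L).H Z →ₗ[(baseW W L).K] (baseW W L).H Z)
    (u : (baseW W M).H Z) : lamH lam Z (lft τ A u) = A (lamH lam Z u) := by
  refine ind_em (q := fun u => lamH lam Z (lft τ A u) = A (lamH lam Z u)) ?_ ?_ ?_ u
  · simp only [map_zero]
  · intro x y hx hy; simp only [map_add, hx, hy]
  · intro m a
    rw [map_smul, lft_em, lamH_smul_psi, lamH_em, map_smul]

theorem lamH_gr {i : ℕ} {x : (baseW W M).H Z} (hx : x ∈ (baseW W M).gr Z i) :
    lamH lam Z x ∈ (baseW W L).gr Z i := by
  refine gr_ind (q := fun x => lamH lam Z x ∈ (baseW W L).gr Z i) ?_ ?_ ?_ hx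
  · rw [map_zero]; exact Submodule.zero_mem _
  · intro x y hx hy
    rw [map_add]; exact Submodule.add_mem _ hx hy
  · intro m a ha
    rw [lamH_em]
    exact Submodule.smul_mem _ _ (em_gr ha)

end Functional

theorem exists_fnl {m : M} (hm : m ≠ 0) :
    ∃ f : M →+ L, (∀ (l : L) (m : M), f (τ l * m) = l * f m) ∧ f m ≠ 0 := by
  let _ : Algebra L M := τ.toRingHom.toAlgebra
  obtain ⟨f, hf⟩ : ∃ f : M →ₗ[L] L, f m ≠ 0 := by
    by_contra hcon
    push Not at hcon
    exact hm ((Module.forall_dual_apply_eq_zero_iff L m).1 hcon)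
  refine ⟨f.toAddMonoidHom, fun l m => ?_, hf⟩
  have h := f.map_smul l m
  rw [Algebra.smul_def, smul_eq_mul] at h
  exact h

/-- There are enough functionals. -/
theorem exists_lam {m : (baseW W M).K} (hm : m ≠ 0) : ∃ lam : Fnl W τ, lam.f m ≠ 0 := by
  obtain ⟨f, h1, h2⟩ := exists_fnl τ (m := m) hm
  exact ⟨⟨f, h1⟩, h2⟩

end Pool.Agent.N132.HT
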