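import Pool.Agent.N132.HT.Core
import Pool.Agent.Y132.AH.MT

/-!
# Classes with finite orbits are Tate classes
-/

open CategoryTheory AlgebraicGeometry

set_option autoImplicit false
set_option linter.unusedSectionVars false

universe u

namespace Pool.Agent.N132.HT

open Module
open Pool.Agent.H914 Pool.Agent.H914.VarClass Pool.Agent.H914.VarClass.Obj
  Pool.Agent.H914.WeilCohomology Pool.Agent.Y133.Half Pool.Agent.Y121.AH

open Pool.Agent.Y132.AH (GaloisData IsTate scaleOp scaleOp_apply mem_of_prj ext_prj gr_push prj)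

variable {k : Type u} [Field k] {𝒱 : VarClass k} {ops : CycleOps 𝒱}
  {V : WeilCohomology.{u, 0} ops} {Γ : Type} [Group Γ] (G : GaloisData V Γ) {X Y Z P : 𝒱.Obj}

theorem push_gr0 (f : X ⟶ Y) {j : ℕ} (hj : j + Y.dim < X.dim) {a : V.H X}
    (ha : a ∈ V.gr X (2 * j)) : V.push f a = 0 :=
  ext_prj (V.isInternal Y) fun m => by
    rw [map_zero]
    exact gr_push f ha (by omega)

theorem push_gr1 (f : X ⟶ Y) {j l : ℕ} (hl : l + X.dim = j + Y.dim) {a : V.H X}
    (ha : a ∈ V.gr X (2 * j)) : V.push f a ∈ V.gr Y (2 * l) :=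
  mem_of_prj (V.isInternal Y) fun m hm => gr_push f ha (by omega)

theorem act_push (g : Γ) (f : X ⟶ Y) (a : V.H X) :
    (G.χ g : V.K) ^ X.dim • G.act Y g (V.push f a) =
      (G.χ g : V.K) ^ Y.dim • V.push f (G.act X g a) := by
  rw [← sub_eq_zero]
  apply V.nondeg
  intro b
  have hinv : ∀ (Z : 𝒱.Obj) (b : V.H Z), G.act Z g (G.act Z g⁻¹ b) = b := fun Z b => by
    rw [← AlgEquiv.mul_apply, ← map_mul, mul_inv_cancel, map_one, AlgEquiv.one_apply]
  have e1 : V.tr Y (G.act Y g (V.push f a) * b) =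
      (G.χ g : V.K) ^ Y.dim * V.tr X (a * V.map f (G.act Y g⁻¹ b)) := by
    conv_lhs => rw [← hinv Y b]
    rw [← map_mul, (G.galois Y).tr_act, V.tr_push]
  have e2 : (G.χ g : V.K) ^ X.dim * V.tr X (a * V.map f (G.act Y g⁻¹ b)) =
      V.tr X (G.act X g a * V.map f b) := by
    rw [← (G.galois X).tr_act g, map_mul, ← G.map f g⁻¹ b, hinv]
  rw [sub_mul, map_sub, smul_mul_assoc, map_smul, smul_mul_assoc, map_smul, smul_eq_mul,
    smul_eq_mul, V.tr_push, e1, ← e2]
  ring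

/-- The action of `g` on the classes of degree `2 j`, twisted by the `j`-th power of the
character. -/
noncomputable def tw (g : Γ) (Z : 𝒱.Obj) : V.H Z →ₗ[V.K] V.H Z :=
  (scaleOp (V.isInternal Z) fun i => ((G.χ g : V.K) ^ (i / 2))⁻¹) ∘ₗ
    (G.act Z g).toAlgHom.toLinearMap

theorem tw_gr (g : Γ) {j : ℕ} {x : V.H Z} (hx : x ∈ V.gr Z (2 * j)) :
    tw G g Z x = ((G.χ g : V.K) ^ j)⁻¹ • G.act Z g x := by
  have h1 : G.act Z g x ∈ V.gr Z (2 * j) := (G.galois Z).gr_mem g _ _ hx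
  have h2 : tw G g Z x = scaleOp (V.isInternal Z) (fun i => ((G.χ g : V.K) ^ (i / 2))⁻¹)
      (G.act Z g x) := rfl
  rw [h2, scaleOp_apply _ _ h1]
  congr 3
  omega

theorem even_ind {p : V.H Z → Prop} (h : ∀ j, ∀ x ∈ V.gr Z (2 * j), p x) (h0 : p 0)
    (hadd : ∀ x y, p x → p y → p (x + y)) {x : V.H Z} (hx : x ∈ PH V Z 0) : p x := by
  refine PH.ind (p := p) (fun i hi x hx => ?_) h0 hadd hx
  obtain ⟨j, rfl⟩ : ∃ j, i = 2 * j := ⟨i / 2, by omega⟩
  exact h j x hx

/-- The twisted operators. -/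
noncomputable def opsGal : Ops V Γ where
  op := tw G
  gr g Z j x hx := by
    rw [tw_gr G g hx]
    exact Submodule.smul_mem _ _ ((G.galois Z).gr_mem g _ _ hx)
  mul g Z a b ha hb := by
    refine even_ind (p := fun a => tw G g Z (a * b) = tw G g Z a * tw G g Z b) ?_ ?_ ?_ ha
    · intro i a ha
      refine even_ind (p := fun b => tw G g Z (a * b) = tw G g Z a * tw G g Z b) ?_ ?_ ?_ hb
      · intro j b hb
        have h1 : a * b ∈ V.gr Z (2 * (i + j)) := by
          rw [mul_add]; exact V.mul_mem ha hb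
        rw [tw_gr G g h1, tw_gr G g ha, tw_gr G g hb, map_mul, smul_mul_smul_comm, pow_add,
          mul_inv]
      · rw [mul_zero, map_zero, mul_zero]
      · intro x y hx hy; rw [mul_add, map_add, map_add, hx, hy, mul_add]
    · rw [zero_mul, map_zero, zero_mul]
    · intro x y hx hy; rw [add_mul, map_add, map_add, hx, hy, add_mul]
  map g X Y f b hb := by
    refine even_ind (p := fun b => tw G g X (V.map f b) = V.map f (tw G g Y b)) ?_ ?_ ?_ hb
    · intro j b hb
      rw [tw_gr G g (V.map_mem f hb), tw_gr G g hb, map_smul, G.map f g b]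
    · simp only [map_zero]
    · intro x y hx hy; simp only [map_add, hx, hy]
  push g X Y f a ha := by
    refine even_ind (p := fun a => tw G g Y (V.push f a) = V.push f (tw G g X a)) ?_ ?_ ?_ ha
    · intro j a ha
      have ha' : G.act X g a ∈ V.gr X (2 * j) := (G.galois X).gr_mem g _ _ ha
      rw [tw_gr G g ha, map_smul]
      by_cases hj : j + Y.dim < X.dim
      · rw [push_gr0 f hj ha, push_gr0 f hj ha', map_zero, smul_zero]
      · obtain ⟨l, hl⟩ : ∃ l, l + X.dim = j + Y.dim := ⟨j + Y.dim - X.dim, by omega⟩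
        rw [tw_gr G g (push_gr1 f hl ha)]
        have hne : (G.χ g : V.K) ≠ 0 := Units.ne_zero _
        have h1 := act_push G g f a
        have h2 := congrArg (fun z => ((G.χ g : V.K) ^ X.dim)⁻¹ • z) h1
        beta_reduce at h2
        rw [smul_smul, inv_mul_cancel₀ (pow_ne_zero _ hne), one_smul, smul_smul] at h2
        rw [h2, smul_smul]
        congr 1
        field_simp
        rw [← pow_add, ← pow_add]
        congr 1
        omega
    · simp only [map_zero]
    · intro x y hx hy; simp only [map_add, hx, hy]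

/-- A class with a finite orbit under a subgroup of finite index is a Tate class. -/
theorem isTate_of_finite {j : ℕ} {u : V.H Z} (hu : u ∈ V.gr Z (2 * j)) (Δ : Subgroup Γ)
    [Δ.FiniteIndex] (hfin : {y | ∃ g ∈ Δ, y = tw G g Z u}.Finite) : IsTate G Z j u := by
  classical
  let τ : Γ →* Module.End V.K (V.H Z) :=
    { toFun := fun g => ((G.χ g : V.K) ^ j)⁻¹ • (G.act Z g).toAlgHom.toLinearMap
      map_one' := by
        rw [map_one, map_one, Units.val_one, one_pow, inv_one, one_smul]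
        rfl
      map_mul' := fun g h => by
        apply LinearMap.ext
        intro x
        rw [map_mul, map_mul, Units.val_mul, mul_pow, mul_inv]
        change (((G.χ g : V.K) ^ j)⁻¹ * ((G.χ h : V.K) ^ j)⁻¹) • G.act Z g (G.act Z h x) =
          ((G.χ g : V.K) ^ j)⁻¹ • G.act Z g (((G.χ h : V.K) ^ j)⁻¹ • G.act Z h x)
        rw [map_smul, smul_smul] }
  have hτ : ∀ g, τ g u = tw G g Z u := fun g => (tw_gr G g hu).symm
  let _inst : MulAction Γ (V.H Z) := MulAction.compHom (V.H Z) τ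
  have hsmul : ∀ (g : Γ) (x : V.H Z), g • x = τ g x := fun g x => rfl
  have horb : (MulAction.orbit Γ u).Finite := by
    have hq : Finite (Γ ⧸ Δ) := Subgroup.finite_quotient_of_finiteIndex
    refine (Set.finite_iUnion (fun q : Γ ⧸ Δ => hfin.image (τ q.out))).subset ?_
    rintro _ ⟨g, rfl⟩
    change g • u ∈ _
    rw [hsmul]
    obtain ⟨h, hh⟩ : ∃ h ∈ Δ, g = (g : Γ ⧸ Δ).out * h := by
      refine ⟨((g : Γ ⧸ Δ).out)⁻¹ * g, ?_, by group⟩
      rw [← QuotientGroup.eq]
      exact QuotientGroup.out_eq' _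
    refine Set.mem_iUnion.2 ⟨(g : Γ ⧸ Δ), tw G h Z u, ⟨h, hh.1, rfl⟩, ?_⟩
    rw [← hτ, ← Module.End.mul_apply, ← map_mul, ← hh.2]
  have hfo : Finite (MulAction.orbit Γ u) := horb
  have hfs : Finite (Γ ⧸ MulAction.stabilizer Γ u) :=
    Finite.of_equiv _ (MulAction.orbitEquivQuotientStabilizer Γ u)
  refine ⟨hu, MulAction.stabilizer Γ u, Subgroup.finiteIndex_of_finite_quotient, fun g hg => ?_⟩
  have h1 : g • u = u := hg
  rw [hsmul, hτ, tw_gr G g hu] at h1
  have h2 := congrArg (fun z => (G.χ g : V.K) ^ j • z) h1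
  beta_reduce at h2
  rw [smul_smul, mul_inv_cancel₀ (pow_ne_zero _ (Units.ne_zero _)), one_smul] at h2
  exact h2

theorem tw_fix_of_isTate {j : ℕ} {u : V.H Z} (hu : IsTate G Z j u) :
    ∃ Δ : Subgroup Γ, Δ.FiniteIndex ∧ ∀ g ∈ Δ, tw G g Z u = u := by
  obtain ⟨hgr, Δ, hΔ, h⟩ := hu
  refine ⟨Δ, hΔ, fun g hg => ?_⟩
  rw [tw_gr G g hgr]
  have h1 : G.act Z g u = (G.χ g : V.K) ^ j • u := h g hg
  rw [h1, smul_smul, inv_mul_cancel₀ (pow_ne_zero _ (Units.ne_zero _)), one_smul]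

variable {W : WeilCohomology.{u, 0} ops} (R : Rlz W V)

/-- **Finite generation over Tate classes implies Tate.** -/
theorem isTate_of_gen {S T : Sys W} (hgen : GenBy S T X P)
    (hS : ∀ Z, ∀ x ∈ S.C Z, ∃ Δ : Subgroup Γ, Δ.FiniteIndex ∧
      ∀ g ∈ Δ, tw G g Z (R.E Z x) = R.E Z x) {n j : ℕ} {v : W.H (pw X n)}
    (hv : v ∈ T.C (pw X n)) (hj : v ∈ W.gr (pw X n) (2 * j)) :
    IsTate G (pw X n) j (R.E _ v) := by
  classical
  obtain ⟨F, hF, hFS, hfin⟩ := finite_values (opsGal G) R hgen hv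
  have hFf : Finite F := hF
  have h1 : ∀ p : F, ∃ Δ : Subgroup Γ, Δ.FiniteIndex ∧
      ∀ g ∈ Δ, tw G g p.1.1 (R.E p.1.1 p.1.2) = R.E p.1.1 p.1.2 := fun p =>
    hS _ _ (hFS p.1 p.2)
  choose Δ hΔ hfix using h1
  have hind : (⨅ p, Δ p).FiniteIndex := Subgroup.finiteIndex_iInf hΔ
  refine isTate_of_finite G (R.gr hj) (⨅ p, Δ p) (hfin.subset ?_)
  rintro y ⟨g, hg, rfl⟩
  exact ⟨g, fun p hp => hfix ⟨p, hp⟩ g ((Subgroup.mem_iInf.1 hg) ⟨p, hp⟩), rfl⟩

end Pool.Agent.N132.HT
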