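import Pool.Agent.Y121.AH.Defs
import Pool.Agent.Y133.Half.PairDefs
import Pool.Agent.Y132.AH.GDefs
import Pool.Agent.R920.MT.Defs

/-!
# Motivated classes, Hodge classes and Tate classes: definitions
-/

open CategoryTheory AlgebraicGeometry

universe u

namespace Pool.Agent.N132.HT

open Pool.Agent.H914 Pool.Agent.H914.VarClass Pool.Agent.H914.VarClass.Obj
  Pool.Agent.H914.WeilCohomology Pool.Agent.Y121.AH
open Pool.Agent.Y133.Half (dimBy)
open Pool.Agent.Y132.AH (GaloisData IsTate)
open Pool.Agent.R920.MT (IsMotivated)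

variable {k : Type u} [Field k] {𝒱 : VarClass k} {ops : CycleOps 𝒱}

/-- The dimension of the space spanned by the motivated classes on `X` of all degrees. -/
noncomputable def motDim (W : WeilCohomology.{u, 0} ops) (X : 𝒱.Obj) : ℕ :=
  dimBy W (IsMotivated W) X

/-- All Hodge classes on `X` are motivated. -/
def HodgeMotivated (T : HodgeTheory ops) (X : 𝒱.Obj) : Prop :=
  ∀ j c, IsHodge T X j c → IsMotivated T.W X j c

variable {T : HodgeTheory ops} {L : Type} [Field L] [Algebra T.W.K L] {Γ : Type} [Group Γ]

/-- The dimension of the space spanned by the Tate classes on `X` of all degrees. -/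
noncomputable def tateDim (G : GaloisData (baseW T.W L) Γ) (X : 𝒱.Obj) : ℕ :=
  dimBy (baseW T.W L) (IsTate G) X

/-- All Tate classes on `X` are linear combinations of motivated classes. -/
def TateMotivated (G : GaloisData (baseW T.W L) Γ) (X : 𝒱.Obj) : Prop :=
  ∀ j c, IsTate G X j c → c ∈ Submodule.span (baseW T.W L).K
    {x | ∃ c', IsMotivated T.W X j c' ∧ em T.W L c' = x}

/-- All Hodge classes on `X` are Tate classes. -/
def HodgeIsTate (G : GaloisData (baseW T.W L) Γ) (X : 𝒱.Obj) : Prop :=
  ∀ j c, IsHodge T X j c → IsTate G X j (em T.W L c)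

/-- The Mumford-Tate conjecture for the classes on `X`: the Tate classes are the linear combinations
of the Hodge classes. -/
def MumfordTateOn (G : GaloisData (baseW T.W L) Γ) (X : 𝒱.Obj) : Prop :=
  ∀ j c, IsTate G X j c ↔ c ∈ Submodule.span (baseW T.W L).K
    {x | ∃ c', IsHodge T X j c' ∧ em T.W L c' = x}

variable {J : Type} {E : J → Type} [∀ a, Field (E a)] [∀ a, Algebra T.W.K (E a)] {Δ : J → Type}
  [∀ a, Group (Δ a)]

/-- The rational class `c` is a Hodge class and it is a Tate class for all Galois actions `G b`. -/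
def IsHodgeTate (G : ∀ a, GaloisData (baseW T.W (E a)) (Δ a)) (X : 𝒱.Obj) (j : ℕ)
    (c : T.W.H X) : Prop :=
  IsHodge T X j c ∧ ∀ b, IsTate (G b) X j (em T.W (E b) c)

/-- The Tate classes on `X` for the Galois action `G a` are the linear combinations of the rational
classes which are Hodge classes and Tate classes for all Galois actions `G b`. -/
def TateIndependent (G : ∀ a, GaloisData (baseW T.W (E a)) (Δ a)) (a : J) (X : 𝒱.Obj) : Prop :=
  ∀ j c, IsTate (G a) X j c ↔ c ∈ Submodule.span (baseW T.W (E a)).K
    {x | ∃ c', IsHodgeTate G X j c' ∧ em T.W (E a) c' = x}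

end Pool.Agent.N132.HT
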